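import Pool.Agent.Run7.h192.Sgn.Sig

/-!
# Neutral projectors from vectors with squares of different signs
-/

set_option autoImplicit false

open CategoryTheory AlgebraicGeometry Finset

universe u v

namespace Pool.Agent.Run7.h192.Sgn

open Pool.Agent.H914 Pool.Agent.H914.VarClass Pool.Agent.H914.VarClass.Obj
  Pool.Agent.H914.WeilCohomology Pool.Agent.H281R3.HT Pool.Agent.W552 Pool.Agent.W539.Ker

variable {k : Type u} [Field k] {𝒱 : VarClass k} {ops : CycleOps 𝒱}
  {W : WeilCohomology.{u, v} ops} {X Y Z : 𝒱.Obj}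

lemma hm_neg {u : Module.End W.K (W.H X)} (h : Hm W 0 u) : Hm W 0 (-u) := by
  rw [hm_zero_iff] at h ⊢
  apply LinearMap.ext
  intro x
  have h1 := congrArg (fun T => T x) h
  simp only [Module.End.mul_apply, LinearMap.neg_apply, map_neg] at h1 ⊢
  rw [h1]

section Rk

variable {D : X.Cycles} {f : Module.End W.K (W.H X)} (G : Gd W X D f)

include G

/-- Rank one operators are algebraic. -/
lemma rk_aop' {l : ℕ} {x y : W.H X} (hx : x ∈ algClasses W X l) (hy : y ∈ algClasses W X l) :
    AOp W X X ((bf W X D f x).smulRight y) := by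
  have h1 : th W D f (ext W x y) = (bf W X D f x).smulRight y := by
    apply LinearMap.ext
    intro z
    rw [LinearMap.smulRight_apply]
    exact th_ext G.fr (alg_gr hx) (alg_gr hy) ⟨2 * l, by ring⟩ z
  rw [← h1]
  exact AOp.comp ⟨_, (AS.of hx).ext (AS.of hy), rfl⟩ (G.pa.mul G.sa)

/-- Rank one operators between classes of the same degree have weight zero. -/
lemma rk_hm {l : ℕ} {x y : W.H X} (hx : x ∈ algClasses W X l) (hy : y ∈ algClasses W X l) :
    Hm W 0 ((bf W X D f x).smulRight y) := by
  rw [hm_zero_iff]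
  apply LinearMap.ext
  intro z
  rw [Module.End.mul_apply, Module.End.mul_apply, LinearMap.smulRight_apply,
    LinearMap.smulRight_apply, map_smul, Fr.wt_gr (alg_gr hy), ← G.wt_self, Fr.wt_gr (alg_gr hx),
    map_smul, LinearMap.smul_apply, smul_smul, smul_eq_mul, mul_comm]

lemma bf_symm_as {x y : W.H X} (hx : AS W X x) : bf W X D f y x = bf W X D f x y := by
  rw [G.sy y x, par_of_as hx]

lemma SI.add {Q R : Module.End W.K (W.H X)} (h : SI W X D f Q) (h' : SI W X D f R)
    (h0 : Q * R = 0) (h0' : R * Q = 0) : SI W X D f (Q + R) where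
  ao := h.ao.add h'.ao
  hm := h.hm.add h'.hm
  sq := by rw [add_mul, mul_add, mul_add, h.sq, h'.sq, h0, h0', zero_add, add_zero]
  sa x y := by
    rw [LinearMap.add_apply, map_add, LinearMap.add_apply, h.sa, h'.sa, LinearMap.add_apply,
      map_add]

/-- The operators attached to two orthogonal vectors with squares of different signs. -/
lemma neu_pair {l : ℕ} {z w : W.H X} (hz : z ∈ algClasses W X l) (hw : w ∈ algClasses W X l)
    {α β : ℚ} (hα : 0 < α) (hβ : 0 < β) (hzz : bf W X D f z z = -(α : W.K))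
    (hww : bf W X D f w w = (β : W.K)) (hzw : bf W X D f z w = 0) :
    Neu W X D f (-((α : W.K)⁻¹ • (bf W X D f z).smulRight z) +
        (β : W.K)⁻¹ • (bf W X D f w).smulRight w)
      ((bf W X D f w).smulRight z - (bf W X D f z).smulRight w) (α * β) := by
  have hα' : (α : W.K) ≠ 0 := by exact_mod_cast hα.ne'
  have hβ' : (β : W.K) ≠ 0 := by exact_mod_cast hβ.ne'
  have hwz : bf W X D f w z = 0 := by rw [bf_symm_as G (AS.of hz), hzw]
  have sz : ∀ x, bf W X D f x z = bf W X D f z x := fun x => bf_symm_as G (AS.of hz)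
  have sw : ∀ x, bf W X D f x w = bf W X D f w x := fun x => bf_symm_as G (AS.of hw)
  have hQ : ∀ x, (-((α : W.K)⁻¹ • (bf W X D f z).smulRight z) +
      (β : W.K)⁻¹ • (bf W X D f w).smulRight w : Module.End W.K (W.H X)) x =
      -((α : W.K)⁻¹ * bf W X D f z x) • z + ((β : W.K)⁻¹ * bf W X D f w x) • w := by
    intro x
    rw [LinearMap.add_apply, LinearMap.neg_apply, LinearMap.smul_apply, LinearMap.smul_apply,
      LinearMap.smulRight_apply, LinearMap.smulRight_apply, smul_smul, smul_smul, neg_smul]
  have hJ : ∀ x, ((bf W X D f w).smulRight z - (bf W X D f z).smulRight w :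
      Module.End W.K (W.H X)) x = (bf W X D f w x) • z - (bf W X D f z x) • w := fun x => rfl
  have e1 : ((α⁻¹ : ℚ) : W.K) = (α : W.K)⁻¹ := Rat.cast_inv _
  have e2 : ((β⁻¹ : ℚ) : W.K) = (β : W.K)⁻¹ := Rat.cast_inv _
  constructor
  · constructor
    · rw [← e1, ← e2]
      exact (AOp.ratSub.neg ((rk_aop' G hz hz).smul _)).add ((rk_aop' G hw hw).smul _)
    · exact (hm_neg ((rk_hm G hz hz).smul _)).add ((rk_hm G hw hw).smul _)
    · apply LinearMap.ext
      intro x
      rw [Module.End.mul_apply, hQ, hQ, map_add, map_add, map_smul, map_smul, map_smul, map_smul,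
        hzz, hzw, hww, hwz]
      simp only [smul_eq_mul, mul_zero, add_zero, zero_add]
      congr 2
      · field_simp
      · field_simp
    · intro x y
      rw [hQ, hQ, map_add, map_add, map_smul, map_smul, map_smul, map_smul, LinearMap.add_apply,
        LinearMap.smul_apply, LinearMap.smul_apply, sz, sw]
      simp only [smul_eq_mul]
      ring
  · exact AOp.ratSub.sub (rk_aop' G hw hz) (rk_aop' G hz hw)
  · rw [sub_eq_add_neg]
    exact (rk_hm G hw hz).add (hm_neg (rk_hm G hz hw))
  · apply LinearMap.ext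
    intro x
    rw [Module.End.mul_apply, hJ, hQ, map_sub, map_sub, map_smul, map_smul, map_smul, map_smul,
      hzz, hzw, hww, hwz]
    simp only [smul_eq_mul, mul_zero, zero_sub, sub_zero]
    rw [sub_eq_add_neg, ← neg_smul]
    congr 2
    · field_simp
    · field_simp
  · exact mul_pos hα hβ
  · intro x y
    rw [hJ, hJ, hQ]
    simp only [map_sub, map_add, map_smul, LinearMap.sub_apply, LinearMap.add_apply,
      LinearMap.smul_apply, smul_eq_mul, hzz, hzw, hww, hwz]
    push_cast
    field_simp
    ring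

/-- **Families of vectors with squares of different signs.** -/
theorem AD.base {ι : Type} [Fintype ι] {z w : ι → W.H X} {l : ι → ℕ}
    (hz : ∀ i, z i ∈ algClasses W X (l i)) (hw : ∀ i, w i ∈ algClasses W X (l i))
    {α β : ι → ℚ} (hα : ∀ i, 0 < α i) (hβ : ∀ i, 0 < β i)
    (hzz : ∀ i, bf W X D f (z i) (z i) = -(α i : W.K))
    (hww : ∀ i, bf W X D f (w i) (w i) = (β i : W.K))
    (hzz' : ∀ i j, i ≠ j → bf W X D f (z i) (z j) = 0)
    (hww' : ∀ i j, i ≠ j → bf W X D f (w i) (w j) = 0)
    (hzw : ∀ i j, bf W X D f (z i) (w j) = 0) :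
    AD W X D f (Module.finrank W.K (W.H X) - 2 * Fintype.card ι) := by
  classical
  have hα' : ∀ i, (α i : W.K) ≠ 0 := fun i => by exact_mod_cast (hα i).ne'
  have hβ' : ∀ i, (β i : W.K) ≠ 0 := fun i => by exact_mod_cast (hβ i).ne'
  have hwz : ∀ i j, bf W X D f (w i) (z j) = 0 := fun i j => by
    rw [bf_symm_as G (AS.of (hz j)), hzw]
  set Q : ι → Module.End W.K (W.H X) := fun i =>
    (-((α i : W.K)⁻¹ • (bf W X D f (z i)).smulRight (z i)) +
        (β i : W.K)⁻¹ • (bf W X D f (w i)).smulRight (w i)) with hQdef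
  set J : ι → Module.End W.K (W.H X) := fun i =>
    ((bf W X D f (w i)).smulRight (z i) - (bf W X D f (z i)).smulRight (w i)) with hJdef
  have hN : ∀ i, Neu W X D f (Q i) (J i) (α i * β i) := fun i =>
    neu_pair G (hz i) (hw i) (hα i) (hβ i) (hzz i) (hww i) (hzw i i)
  have hQ : ∀ i x, Q i x = -((α i : W.K)⁻¹ * bf W X D f (z i) x) • z i +
      ((β i : W.K)⁻¹ * bf W X D f (w i) x) • w i := by
    intro i x
    simp only [hQdef]
    rw [LinearMap.add_apply, LinearMap.neg_apply, LinearMap.smul_apply, LinearMap.smul_apply,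
      LinearMap.smulRight_apply, LinearMap.smulRight_apply, smul_smul, smul_smul, neg_smul]
  have hQz : ∀ i, Q i (z i) = z i := by
    intro i
    rw [hQ, hzz, hwz, mul_zero, zero_smul, add_zero, mul_neg, neg_neg,
      inv_mul_cancel₀ (hα' i), one_smul]
  have hQw : ∀ i, Q i (w i) = w i := by
    intro i
    rw [hQ, hzw, hww, mul_zero, neg_zero, zero_smul, zero_add, inv_mul_cancel₀ (hβ' i), one_smul]
  have hQz' : ∀ i j, i ≠ j → Q i (z j) = 0 := by
    intro i j hij
    rw [hQ, hzz' i j hij, hwz, mul_zero, mul_zero, neg_zero, zero_smul, zero_smul, add_zero]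
  have hQw' : ∀ i j, i ≠ j → Q i (w j) = 0 := by
    intro i j hij
    rw [hQ, hzw, hww' i j hij, mul_zero, mul_zero, neg_zero, zero_smul, zero_smul, add_zero]
  have hQQ : ∀ i j, i ≠ j → Q i * Q j = 0 := by
    intro i j hij
    apply LinearMap.ext
    intro x
    rw [Module.End.mul_apply, hQ j, map_add, map_smul, map_smul, hQz' i j hij, hQw' i j hij,
      smul_zero, smul_zero, add_zero, LinearMap.zero_apply]
  have hSQ : ∀ i, (∑ j, Q j) * Q i = Q i := by
    intro i
    rw [Finset.sum_mul, Finset.sum_eq_single i]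
    · exact (hN i).si.sq
    · intro j _ hj; exact hQQ j i hj
    · intro h; exact absurd (Finset.mem_univ _) h
  have hQS : ∀ i, Q i * (∑ j, Q j) = Q i := by
    intro i
    rw [Finset.mul_sum, Finset.sum_eq_single i]
    · exact (hN i).si.sq
    · intro j _ hj; exact hQQ i j (Ne.symm hj)
    · intro h; exact absurd (Finset.mem_univ _) h
  have hSS : (∑ j, Q j) * (∑ j, Q j) = ∑ j, Q j := by
    rw [Finset.mul_sum]
    exact Finset.sum_congr rfl fun i _ => hSQ i
  refine ⟨ι, inferInstance, Q, J, fun i => α i * β i, 1 - ∑ i, Q i, ?_, hN, hQQ, ?_, ?_, ?_, ?_⟩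
  · constructor
    · exact AOp.ratSub.sub AOp.one (AOp.ratSub.sum _ fun i _ => (hN i).si.ao)
    · have h1 : Hm W 0 (∑ i, Q i) := Hm.sum _ fun i _ => (hN i).si.hm
      rw [sub_eq_add_neg]
      exact Hm.one.add (hm_neg h1)
    · rw [sub_mul, one_mul, mul_sub, mul_one, hSS, sub_self, sub_zero]
    · intro x y
      rw [LinearMap.sub_apply, LinearMap.sub_apply, map_sub, map_sub, LinearMap.sub_apply,
        Module.End.one_apply, Module.End.one_apply, LinearMap.sum_apply, LinearMap.sum_apply,
        map_sum, map_sum, LinearMap.sum_apply]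
      congr 1
      exact Finset.sum_congr rfl fun i _ => (hN i).si.sa x y
  · intro i
    rw [sub_mul, one_mul, hSQ, sub_self]
  · intro i
    rw [mul_sub, mul_one, hQS, sub_self]
  · rw [sub_add_cancel]
  · -- the rank
    set R : Module.End W.K (W.H X) := 1 - ∑ i, Q i with hR
    have hli : LinearIndependent W.K (Sum.elim z w) := by
      rw [Fintype.linearIndependent_iff]
      intro g hg
      rw [Fintype.sum_sum_type] at hg
      simp only [Sum.elim_inl, Sum.elim_inr] at hg
      rintro (i | i)
      · have h3 := congrArg (fun a => bf W X D f a (z i)) hg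
        simp only [map_add, map_sum, LinearMap.add_apply, LinearMap.sum_apply, map_smul,
          LinearMap.smul_apply, map_zero, LinearMap.zero_apply, smul_eq_mul, hwz, mul_zero,
          Finset.sum_const_zero, add_zero] at h3
        rw [Finset.sum_eq_single i] at h3
        · rw [hzz] at h3
          exact (mul_eq_zero.1 h3).resolve_right (neg_ne_zero.2 (hα' i))
        · intro j _ hj
          rw [hzz' j i hj, mul_zero]
        · intro h; exact absurd (Finset.mem_univ _) h
      · have h3 := congrArg (fun a => bf W X D f a (w i)) hg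
        simp only [map_add, map_sum, LinearMap.add_apply, LinearMap.sum_apply, map_smul,
          LinearMap.smul_apply, map_zero, LinearMap.zero_apply, smul_eq_mul, hzw, mul_zero,
          Finset.sum_const_zero, zero_add] at h3
        rw [Finset.sum_eq_single i] at h3
        · rw [hww] at h3
          exact (mul_eq_zero.1 h3).resolve_right (hβ' i)
        · intro j _ hj
          rw [hww' j i hj, mul_zero]
        · intro h; exact absurd (Finset.mem_univ _) h
    have hker : ∀ p : ι ⊕ ι, Sum.elim z w p ∈ LinearMap.ker R := by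
      rintro (i | i)
      · rw [LinearMap.mem_ker, hR, Sum.elim_inl, LinearMap.sub_apply, Module.End.one_apply,
          LinearMap.sum_apply, Finset.sum_eq_single i, hQz, sub_self]
        · intro j _ hj; exact hQz' j i hj
        · intro h; exact absurd (Finset.mem_univ _) h
      · rw [LinearMap.mem_ker, hR, Sum.elim_inr, LinearMap.sub_apply, Module.End.one_apply,
          LinearMap.sum_apply, Finset.sum_eq_single i, hQw, sub_self]
        · intro j _ hj; exact hQw' j i hj
        · intro h; exact absurd (Finset.mem_univ _) h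
    have h1 : 2 * Fintype.card ι ≤ Module.finrank W.K (LinearMap.ker R) := by
      have h4 : LinearIndependent W.K (fun p => (⟨Sum.elim z w p, hker p⟩ :
          LinearMap.ker R)) := by
        apply LinearIndependent.of_comp (LinearMap.ker R).subtype
        exact hli
      have h5 := h4.fintype_card_le_finrank
      rw [Fintype.card_sum] at h5
      omega
    have h2 := LinearMap.finrank_range_add_finrank_ker R
    omega

end Rk

/-- **Failure of the conjecture of Hodge type in one codimension.** -/
theorem AD.of_neg {D : X.Cycles} {f : Module.End W.K (W.H X)} (G : Gd W X D f)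
    (hdeg : 0 < X.V.degCycle (divPow ops D X.dim X.V.fundCycle)) {j : ℕ} (hj1 : 1 ≤ j)
    (hj : 2 * j ≤ X.dim) {z : X.Cycles} (hz : Primitive W X D j z)
    (hneg : pairing ops X D j z z < 0) :
    AD W X D f (Module.finrank W.K (W.H X) - 2 * (X.dim - 2 * j + 1)) := by
  have F := G.fr
  have hfund : Primitive W X D 0 X.V.fundCycle := by
    refine ⟨X.V.fundCycle_mem, ?_⟩
    have h2 := W.cl_mem (divPow_mem (ops := ops) F.hD (X.dim - 2 * 0 + 1) X.V.fundCycle_mem)
    rw [W.gr_eq_bot _ _ (by omega)] at h2
    exact (Submodule.mem_bot _).1 h2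
  have hpos : 0 < pairing ops X D 0 X.V.fundCycle X.V.fundCycle := by
    have hn := divPow_mem (ops := ops) F.hD X.dim hfund.1
    rw [zero_add] at hn
    have h3 := ops.mul_mem hfund.1 hn
    rw [zero_add] at h3
    have h4 : ((X.V.degCycle (ops.mul X.V.fundCycle (divPow ops D X.dim X.V.fundCycle)) : ℚ) :
        W.K) = ((X.V.degCycle (divPow ops D X.dim X.V.fundCycle) : ℚ) : W.K) := by
      rw [← W.tr_cl h3, ← W.tr_cl hn, W.cl_mul, W.cl_fund, one_mul]
    have h5 : X.V.degCycle (ops.mul X.V.fundCycle (divPow ops D X.dim X.V.fundCycle)) =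
        X.V.degCycle (divPow ops D X.dim X.V.fundCycle) := by exact_mod_cast h4
    rw [pairing, pow_zero, one_mul, mul_zero, Nat.sub_zero, h5]
    exact hdeg
  set L := LinearMap.mulLeft W.K (W.cl X D) with hL
  have hfac : ∀ a b : ℕ, (0 : ℚ) < (a.factorial : ℚ) * (b.factorial : ℚ)⁻¹ := fun a b =>
    mul_pos (by exact_mod_cast Nat.factorial_pos _) (inv_pos.2 (by
      exact_mod_cast Nat.factorial_pos _))
  have hzm : ∀ i : Fin (X.dim - 2 * j + 1), (L ^ (i : ℕ)) (W.cl X z) ∈
      algClasses W X (j + i) := fun i => (ap_alg F).map_L_pow (i : ℕ) ⟨z, hz.1, rfl⟩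
  have hwm : ∀ i : Fin (X.dim - 2 * j + 1), (L ^ (j + i : ℕ)) (W.cl X X.V.fundCycle) ∈
      algClasses W X (j + i) := fun i => by
    have := (ap_alg F).map_L_pow (j + i : ℕ) ⟨X.V.fundCycle, hfund.1, rfl⟩
    rwa [zero_add] at this
  have hdegne : ∀ {a b : ℕ} {x y : W.H X}, x ∈ algClasses W X a → y ∈ algClasses W X b →
      a ≠ b → bf W X D f x y = 0 := fun hx hy hab =>
    F.bf_deg (alg_gr hx) (alg_gr hy) (by omega)
  have key := AD.base G (ι := Fin (X.dim - 2 * j + 1))
    (z := fun i => (L ^ (i : ℕ)) (W.cl X z))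
    (w := fun i => (L ^ (j + i : ℕ)) (W.cl X X.V.fundCycle)) (l := fun i => j + i) hzm hwm
    (α := fun i => -((i : ℕ).factorial * ((X.dim - 2 * j - i).factorial : ℚ)⁻¹ *
      pairing ops X D j z z))
    (β := fun i => ((j + i : ℕ).factorial * ((X.dim - 2 * 0 - (j + i)).factorial : ℚ)⁻¹ *
      pairing ops X D 0 X.V.fundCycle X.V.fundCycle))
    (fun i => neg_pos.2 (mul_neg_of_pos_of_neg (hfac _ _) hneg))
    (fun i => mul_pos (hfac _ _) hpos)
    (fun i => by
      rw [bf_same F hj hz hz (j := i) (by omega), Rat.cast_neg, neg_neg])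
    (fun i => by
      rw [bf_same F (n := 0) (by omega) hfund hfund (j := j + i) (by omega)])
    (fun i i' hii => hdegne (hzm i) (hzm i') (fun h => hii (Fin.ext (by omega))))
    (fun i i' hii => hdegne (hwm i) (hwm i') (fun h => hii (Fin.ext (by omega))))
    (fun i i' => by
      by_cases hii : i = i'
      · subst hii
        exact bf_cross F (n := j) (n' := 0) hj (by omega) (by omega) hz hfund
          (j := i) (j' := j + i) (by omega) (by omega)
      · exact hdegne (hzm i) (hwm i') (fun h => hii (Fin.ext (by omega))))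
  rwa [Fintype.card_fin] at key

end Pool.Agent.Run7.h192.Sgn
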