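import Pool.Agent.W539.Ker.Defs
import Pool.Agent.Y163.Defs

/-!
# Indices of the pairings of the standard conjecture of Hodge type, powers: definitions
-/

set_option autoImplicit false

open CategoryTheory AlgebraicGeometry

universe u v

namespace Pool.Agent.Run7.h192.Sgn

open Pool.Agent.H914 Pool.Agent.H914.VarClass Pool.Agent.H914.VarClass.Obj
  Pool.Agent.H281R3.HT Pool.Agent.W539.Ker
open Pool.Agent.Y163 (pw sq)

variable {k : Type u} [Field k] {𝒱 : VarClass k}

/-- The largest number of pairwise orthogonal primitive cycles `z` of codimension `j` on `X` for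
which the number `s * ⟨z, z⟩` is positive. -/
noncomputable def ind {ops : CycleOps 𝒱} (W : WeilCohomology.{u, v} ops) (X : 𝒱.Obj)
    (D : X.Cycles) (j : ℕ) (s : ℚ) : ℕ := sSup {r | HasFamily W X D j s r}

/-- The standard conjecture of Hodge type for the variety `P.X` and the divisor `P.D`, modulo
numerical equivalence: the pairings on the primitive cycles are positive semidefinite. -/
def HodgeNum {ops : CycleOps 𝒱} (W : WeilCohomology.{u, v} ops) (P : Polarized 𝒱) : Prop :=
  ∀ j, 2 * j ≤ P.X.dim → ∀ z, Primitive W P.X P.D j z → 0 ≤ pairing ops P.X P.D j z z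

/-- The divisor on the power `X ^ (n + 1)`, the sum of the pull-backs of `D` from the factors. -/
noncomputable def pwDiv (ops : CycleOps 𝒱) (X : 𝒱.Obj) (D : X.Cycles) :
    ∀ n : ℕ, (pw X n).Cycles
  | 0 => D
  | n + 1 => ops.pull (fst X (pw X n)) D + ops.pull (snd X (pw X n)) (pwDiv ops X D n)

/-- The power `X ^ (n + 1)` with the divisor `pwDiv`. -/
noncomputable def pwPol (ops : CycleOps 𝒱) (P : Polarized 𝒱) (n : ℕ) : Polarized 𝒱 :=
  ⟨pw P.X n, pwDiv ops P.X P.D n⟩

/-- The power `X ^ (2 n + 2)`. -/
noncomputable def sqPol (ops : CycleOps 𝒱) (P : Polarized 𝒱) (n : ℕ) : Polarized 𝒱 :=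
  (pwPol ops P n).prod ops (pwPol ops P n)

/-- The sum of the Betti numbers. -/
noncomputable def betti {ops : CycleOps 𝒱} (W : WeilCohomology.{u, v} ops) (X : 𝒱.Obj) : ℕ :=
  Module.finrank W.K (W.H X)

/-- The number of positive squares of the pairings of the conjecture of Hodge type, in all
codimensions. -/
noncomputable def posSq {ops : CycleOps 𝒱} (W : WeilCohomology.{u, v} ops) (P : Polarized 𝒱) : ℕ :=
  ∑ j ∈ Finset.range (P.X.dim / 2 + 1), ind W P.X P.D j 1

/-- The number of negative squares of the pairings of the conjecture of Hodge type, in all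
codimensions. -/
noncomputable def negSq {ops : CycleOps 𝒱} (W : WeilCohomology.{u, v} ops) (P : Polarized 𝒱) : ℕ :=
  ∑ j ∈ Finset.range (P.X.dim / 2 + 1), ind W P.X P.D j (-1)

/-- `D` is a divisor with the hard Lefschetz property and positive degree, and the standard
conjecture of Lefschetz type holds. -/
structure IsLefschetz {ops : CycleOps 𝒱} (W : WeilCohomology.{u, v} ops) (P : Polarized 𝒱) :
    Prop where
  cyc : P.X.IsCyc 1 P.D
  deg : 0 < P.X.V.degCycle (divPow ops P.D P.X.dim P.X.V.fundCycle)
  hard : HardLefschetz W P.X P.D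
  lef : LefschetzB W P.X P.D

/-- The signatures of the pairings on the powers of `P.X` grow at most like the powers of `c`, in all
codimensions, also on the products with arbitrary varieties; and asymptotically one half of the
squares on the even powers is positive. -/
structure Balanced {ops : CycleOps 𝒱} (W : WeilCohomology.{u, v} ops) (P : Polarized 𝒱)
    (c : ℕ) : Prop where
  pow : ∀ n i, 2 * i ≤ (pwPol ops P n).X.dim →
    |sig W (pwPol ops P n).X (pwPol ops P n).D i| ≤ 2 * c ^ (n + 1)
  prod : ∀ R, IsLefschetz W R → ∀ n i, 2 * i ≤ (R.prod ops (pwPol ops P n)).X.dim →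
    |sig W (R.prod ops (pwPol ops P n)).X (R.prod ops (pwPol ops P n)).D i| ≤
      2 * (betti W R.X * c ^ (n + 1))
  mid : ∀ n, |(posSq W (sqPol ops P n) : ℤ) - negSq W (sqPol ops P n)| ≤ c ^ (2 * n + 2)
  half : Filter.Tendsto (fun n => (posSq W (sqPol ops P n) : ℝ) /
    (posSq W (sqPol ops P n) + negSq W (sqPol ops P n))) Filter.atTop (nhds (1 / 2))

end Pool.Agent.Run7.h192.Sgn
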