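import Pool.Agent.Run7.h192.Sgn.Base
import Pool.Agent.Run7.h192.Sgn.Defs
import Pool.Agent.W534.PoleA

/-!
# The rank of the cycles of the middle codimension as a sum of indices
-/

set_option autoImplicit false

open CategoryTheory AlgebraicGeometry Finset

universe u v

namespace Pool.Agent.Run7.h192.Sgn

open Pool.Agent.H914 Pool.Agent.H914.VarClass Pool.Agent.H914.VarClass.Obj
  Pool.Agent.H914.WeilCohomology Pool.Agent.H281R3.HT Pool.Agent.W552 Pool.Agent.W539.Ker
open Pool.Agent.W534 (numRank interNumbers)

variable {k : Type u} [Field k] {𝒱 : VarClass k} {ops : CycleOps 𝒱}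
  {W : WeilCohomology.{u, v} ops} {X Y Z : 𝒱.Obj} {D : X.Cycles} {f : Module.End W.K (W.H X)}

section Form

variable (F : Fr W X D f)

include F

/-- **An orthogonal family of algebraic classes of the middle degree.** -/
theorem exists_mid {e : ℕ} (he : X.dim = 2 * e) : ∃ (ι : Type) (_ : Fintype ι) (y : ι → W.H X)
    (s : ι → ℚ), (∀ i, y i ∈ algClasses W X e) ∧ (∀ i, s i ≠ 0) ∧
    (∀ i, bf W X D f (y i) (y i) = (s i : W.K)) ∧
    (∀ i j, i ≠ j → bf W X D f (y i) (y j) = 0) ∧
    (∀ u ∈ algClasses W X e, (∀ i, bf W X D f u (y i) = 0) → bf W X D f u u = 0) ∧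
    Fintype.card ι = ∑ n ∈ range (e + 1), (ind W X D n 1 + ind W X D n (-1)) := by
  classical
  have hle : ∀ n : Fin (e + 1), 2 * (n : ℕ) ≤ X.dim := fun n => by omega
  choose M x hx using fun n : Fin (e + 1) => exists_prim W F.hD (hle n)
  set L := LinearMap.mulLeft W.K (W.cl X D) with hL
  have hpm : ∀ (n : Fin (e + 1)) (t : Fin (M n)),
      Primitive W X D n (x n t : X.Cycles) := fun n t => (x n t).2
  have hpne : ∀ (n : Fin (e + 1)) (t : Fin (M n)),
      pairing ops X D n (x n t : X.Cycles) (x n t : X.Cycles) ≠ 0 := by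
    intro n t
    have := (hx n).ne t
    rwa [BP_apply] at this
  have hgr : ∀ n : Fin (e + 1), ∀ z : X.Cycles, Primitive W X D n z →
      (L ^ (e - n)) (W.cl X z) ∈ algClasses W X e := fun n z hz => by
    have := (ap_alg F).map_L_pow (e - n) ⟨z, hz.1, rfl⟩
    rwa [show (n : ℕ) + (e - n) = e by omega] at this
  have hc : ∀ n : Fin (e + 1), (0 : ℚ) < (e - n : ℕ).factorial *
      ((X.dim - 2 * (n : ℕ) - (e - n)).factorial : ℚ)⁻¹ := by
    intro n; positivity
  refine ⟨Σ n : Fin (e + 1), Fin (M n), inferInstance,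
    fun p => (L ^ (e - p.1 : ℕ)) (W.cl X (x p.1 p.2 : X.Cycles)),
    fun p => (e - p.1 : ℕ).factorial * ((X.dim - 2 * (p.1 : ℕ) - (e - p.1)).factorial : ℚ)⁻¹ *
      pairing ops X D p.1 (x p.1 p.2 : X.Cycles) (x p.1 p.2 : X.Cycles),
    ?_, ?_, ?_, ?_, ?_, ?_⟩
  · rintro ⟨n, t⟩
    exact hgr n _ (hpm n t)
  · rintro ⟨n, t⟩
    exact mul_ne_zero (hc n).ne' (hpne n t)
  · rintro ⟨n, t⟩
    exact bf_same F (hle n) (hpm n t) (hpm n t) (j := e - n) (by omega)
  · rintro ⟨n, t⟩ ⟨n', t'⟩ hne
    by_cases hnn : n = n'
    · subst hnn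
      have htt : t ≠ t' := by rintro rfl; exact hne rfl
      have h1 := bf_same F (hle n) (hpm n t) (hpm n t') (j := e - n) (by omega)
      have h2 : pairing ops X D n (x n t : X.Cycles) (x n t' : X.Cycles) = 0 := by
        have := (hx n).orth t t' htt
        rwa [BP_apply] at this
      rw [h2, mul_zero, Rat.cast_zero] at h1
      exact h1
    · exact bf_cross F (hle n) (hle n') (fun h => hnn (Fin.ext h)) (hpm n t) (hpm n' t')
        (j := e - n) (j' := e - n') (by omega) (by omega)
  · intro w hwl hwy
    obtain ⟨v, hv, hs⟩ := (ap_alg F).decomp (mulLeft_isHom F.hD) W_hbd hwl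
    rw [← hL] at hv hs
    -- the primitive components
    have key : ∀ b ∈ range (e + 1), ∃ n : Fin (e + 1),
        (n : ℕ) = e - b ∧ ∃ z, Primitive W X D n z ∧ v b = W.cl X z := by
      intro b hb
      rw [Finset.mem_range] at hb
      obtain ⟨h1, h2, h3⟩ := hv b (by omega)
      obtain ⟨z, hz, hz'⟩ := h1
      refine ⟨⟨e - b, by omega⟩, rfl, z, ⟨hz, ?_⟩, hz'.symm⟩
      rw [cl_divPow, hz']; exact h3
    -- orthogonality of the components
    have hcross : ∀ b ∈ range (e + 1), ∀ b' ∈ range (e + 1), b ≠ b' →
        bf W X D f ((L ^ b) (v b)) ((L ^ b') (v b')) = 0 := by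
      intro b hb b' hb' hne
      obtain ⟨n, hn, z, hz, hvz⟩ := key b hb
      obtain ⟨n', hn', z', hz', hvz'⟩ := key b' hb'
      rw [hvz, hvz']
      rw [Finset.mem_range] at hb hb'
      exact bf_cross F (hle n) (hle n') (by omega) hz hz' (by omega) (by omega)
    have hdiag : ∀ b ∈ range (e + 1), bf W X D f ((L ^ b) (v b)) ((L ^ b) (v b)) = 0 := by
      intro b hb
      obtain ⟨n, hn, z, hz, hvz⟩ := key b hb
      rw [Finset.mem_range] at hb
      have hbj : b ≤ X.dim - 2 * (n : ℕ) := by omega
      have hjn : e - (n : ℕ) = b := by omega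
      have h1 : ∀ t, BP W F.hD n (hle n) ⟨z, hz⟩ (x n t) = 0 := by
        intro t
        have h2 := hwy ⟨n, t⟩
        change bf W X D f w ((L ^ (e - n : ℕ)) (W.cl X (x n t : X.Cycles))) = 0 at h2
        have h3 : bf W X D f w ((L ^ (e - n : ℕ)) (W.cl X (x n t : X.Cycles))) =
            bf W X D f ((L ^ b) (v b)) ((L ^ (e - n : ℕ)) (W.cl X (x n t : X.Cycles))) := by
          rw [hs, map_sum (bf W X D f), LinearMap.sum_apply, Finset.sum_eq_single b]
          · intro b' hb' hne
            obtain ⟨n', hn', z', hz', hvz'⟩ := key b' hb'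
            rw [hvz']
            rw [Finset.mem_range] at hb'
            exact bf_cross F (hle n') (hle n) (by omega) hz' (hpm n t) (by omega) (by omega)
          · intro h0; exact absurd (Finset.mem_range.2 (by omega)) h0
        rw [h2, hjn, hvz, bf_same F (hle n) hz (hpm n t) hbj] at h3
        have h4 : (0 : ℚ) = b.factorial * ((X.dim - 2 * (n : ℕ) - b).factorial : ℚ)⁻¹ *
            pairing ops X D n z (x n t : X.Cycles) := by exact_mod_cast h3
        have h6 := hc n
        rw [hjn] at h6
        rcases mul_eq_zero.1 h4.symm with h5 | h5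
        · exact absurd h5 h6.ne'
        · rw [BP_apply]; exact h5
      have h2 : pairing ops X D n z z = 0 := by
        have := (hx n).max ⟨z, hz⟩ h1
        rwa [BP_apply] at this
      rw [hvz, bf_same F (hle n) hz hz hbj, h2, mul_zero, Rat.cast_zero]
    have h1 : bf W X D f w w = ∑ b ∈ range (e + 1), ∑ b' ∈ range (e + 1),
        bf W X D f ((L ^ b) (v b)) ((L ^ b') (v b')) := by
      conv_lhs => rw [hs]
      rw [map_sum (bf W X D f), LinearMap.sum_apply]
      apply Finset.sum_congr rfl
      intro b _
      rw [map_sum]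
    rw [h1]
    apply Finset.sum_eq_zero
    intro b hb
    apply Finset.sum_eq_zero
    intro b' hb'
    by_cases hbb : b = b'
    · subst hbb; exact hdiag b hb
    · exact hcross b hb b' hb' hbb
  · rw [Fintype.card_sigma, Finset.sum_range]
    apply Finset.sum_congr rfl
    intro n _
    rw [Fintype.card_fin]
    have h1 : ind W X D n 1 = (univ.filter (fun t => 0 < BP W F.hD n (hle n) (x n t)
        (x n t))).card := by
      rw [← (hx n).posIdx_eq (BP_symm F.hD (hle n)), ind, posIdx]
      congr 1
      ext r; exact hasFamily_one F.hD (hle n) r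
    have h2 : ind W X D n (-1) = (univ.filter (fun t => 0 < (-BP W F.hD n (hle n)) (x n t)
        (x n t))).card := by
      rw [← (hx n).neg.posIdx_eq (fun x y => by
        rw [LinearMap.neg_apply, LinearMap.neg_apply, LinearMap.neg_apply, LinearMap.neg_apply,
          BP_symm]), ind, posIdx]
      congr 1
      ext r; exact hasFamily_neg F.hD (hle n) r
    rw [h1, h2, ← Finset.card_union_of_disjoint]
    · have h3 : (univ.filter (fun t => 0 < BP W F.hD n (hle n) (x n t) (x n t))) ∪
          (univ.filter (fun t => 0 < (-BP W F.hD n (hle n)) (x n t) (x n t))) = univ := by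
        ext t
        simp only [Finset.mem_union, Finset.mem_filter, Finset.mem_univ, true_and, iff_true]
        rcases lt_trichotomy (BP W F.hD n (hle n) (x n t) (x n t)) 0 with h0 | h0 | h0
        · right
          rw [LinearMap.neg_apply, LinearMap.neg_apply]
          linarith
        · exact absurd h0 ((hx n).ne t)
        · exact Or.inl h0
      rw [h3, Finset.card_univ, Fintype.card_fin]
    · rw [Finset.disjoint_filter]
      intro t _ h0 h0'
      rw [LinearMap.neg_apply, LinearMap.neg_apply] at h0'
      linarith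

end Form

/-- **The rank of the cycles of the middle codimension modulo numerical equivalence.** -/
theorem numRank_mid (G : Gd W X D f) {e : ℕ} (he : X.dim = 2 * e) :
    numRank ops X e = ∑ n ∈ range (e + 1), (ind W X D n 1 + ind W X D n (-1)) := by
  classical
  have F := G.fr
  obtain ⟨ι, _, y, s, hy, hs0, hs, horth, hmax, hcard⟩ := exists_mid F he
  rw [← hcard]
  have he' : X.dim - e = e := by omega
  have hsy : ∀ a b : W.H X, AS W X a → bf W X D f b a = bf W X D f a b := fun a b ha =>
    bf_symm_as G ha
  -- the star operator on the algebraic classes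
  have hst : ∀ a ∈ algClasses W X e, st W X D f a ∈ algClasses W X e := by
    intro a ha
    rw [st_apply (alg_gr ha)]
    have h1 := F.w_alg (by omega) ha
    rw [he'] at h1
    have h2 := alg_smul (sg (2 * e) : ℚ) h1
    simpa using h2
  -- representatives
  choose z hz hzy using hy
  choose w hw hwy using fun i => hst _ (⟨z i, hz i, hzy i⟩ : y i ∈ algClasses W X e)
  have hwc : ∀ i, X.IsCyc (X.dim - e) (w i) := fun i => by rw [he']; exact hw i
  have hval : ∀ (a b : X.Cycles) (ha : X.IsCyc e a) (hb : X.IsCyc (X.dim - e) b),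
      ((interNumbers ops X e ⟨a, ha⟩ ⟨b, hb⟩ : ℚ) : W.K) = W.tr X (W.cl X a * W.cl X b) := by
    intro a b ha hb
    have h1 := ops.mul_mem ha hb
    rw [show e + (X.dim - e) = X.dim by omega] at h1
    rw [interNumbers, ← W.tr_cl h1, W.cl_mul]
  -- independence
  have hli : LinearIndependent ℚ (fun i => interNumbers ops X e ⟨z i, hz i⟩) := by
    rw [Fintype.linearIndependent_iff]
    intro c hc i
    have h1 := congrFun hc ⟨w i, hwc i⟩
    rw [Finset.sum_apply, Pi.zero_apply] at h1
    have h2 := congrArg (fun q : ℚ => (q : W.K)) h1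
    simp only [Rat.cast_sum, Pi.smul_apply, smul_eq_mul, Rat.cast_mul, Rat.cast_zero] at h2
    rw [Finset.sum_eq_single i] at h2
    · rw [hval, hzy, hwy, ← bf_apply, hs] at h2
      have h3 := (mul_eq_zero.1 h2).resolve_right (by exact_mod_cast hs0 i)
      exact_mod_cast h3
    · intro j _ hj
      rw [hval, hzy, hwy, ← bf_apply, horth j i hj, mul_zero]
    · intro h; exact absurd (Finset.mem_univ _) h
  -- the radical
  have hrad : ∀ u ∈ algClasses W X e, (∀ i, bf W X D f u (y i) = 0) →
      ∀ v ∈ algClasses W X e, bf W X D f u v = 0 := by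
    intro u hu hu0
    have hpol : ∀ v ∈ algClasses W X e, (∀ i, bf W X D f v (y i) = 0) →
        bf W X D f u v = 0 := by
      intro v hv hv0
      have h1 := hmax (u + v) (alg_add hu hv) (fun i => by
        rw [map_add, LinearMap.add_apply, hu0, hv0, add_zero])
      simp only [map_add, LinearMap.add_apply] at h1
      rw [hmax u hu hu0, hmax v hv hv0, hsy u v (AS.of hu), zero_add, add_zero, ← two_mul] at h1
      exact (mul_eq_zero.1 h1).resolve_left two_ne_zero
    intro v hv
    choose q hq using fun i => F.bf_rat (AS.of hv)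
      (AS.of (⟨z i, hz i, hzy i⟩ : y i ∈ algClasses W X e))
    set v' : W.H X := v - ∑ i, ((q i / s i : ℚ) : W.K) • y i with hv'
    have hyi : ∀ i, y i ∈ algClasses W X e := fun i => ⟨z i, hz i, hzy i⟩
    have hsum : ∑ i, ((q i / s i : ℚ) : W.K) • y i ∈ algClasses W X e := by
      have : ∀ S : Finset ι, ∑ i ∈ S, ((q i / s i : ℚ) : W.K) • y i ∈ algClasses W X e := by
        intro S
        induction S using Finset.induction_on with
        | empty => rw [Finset.sum_empty]; exact alg_zero e
        | insert a S ha ih =>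
          rw [Finset.sum_insert ha]
          exact alg_add (alg_smul _ (hyi a)) ih
      exact this _
    have hv'm : v' ∈ algClasses W X e := by
      rw [hv', sub_eq_add_neg]
      exact alg_add hv (alg_neg hsum)
    have hv'0 : ∀ i, bf W X D f v' (y i) = 0 := by
      intro i
      rw [hv', map_sub, LinearMap.sub_apply, map_sum (bf W X D f), LinearMap.sum_apply,
        Finset.sum_eq_single i]
      · rw [map_smul, LinearMap.smul_apply, hs, hq, smul_eq_mul, ← Rat.cast_mul,
          div_mul_cancel₀ _ (hs0 i), sub_self]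
      · intro j _ hj
        rw [map_smul, LinearMap.smul_apply, horth j i hj, smul_zero]
      · intro h; exact absurd (Finset.mem_univ _) h
    have h1 := hpol v' hv'm hv'0
    have h2 : v = v' + ∑ i, ((q i / s i : ℚ) : W.K) • y i := by rw [hv', sub_add_cancel]
    rw [h2, map_add, h1, zero_add, map_sum]
    exact Finset.sum_eq_zero fun i _ => by rw [map_smul, hu0, smul_zero]
  have hspan : Submodule.span ℚ (Set.range (interNumbers ops X e)) =
      Submodule.span ℚ (Set.range (fun i => interNumbers ops X e ⟨z i, hz i⟩)) := by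
    apply le_antisymm
    · rw [Submodule.span_le]
      rintro _ ⟨⟨a, ha⟩, rfl⟩
      choose q hq using fun i => F.bf_rat (AS.of (⟨a, ha, rfl⟩ : W.cl X a ∈ algClasses W X e))
        (AS.of (⟨z i, hz i, hzy i⟩ : y i ∈ algClasses W X e))
      have hyi : ∀ i, y i ∈ algClasses W X e := fun i => ⟨z i, hz i, hzy i⟩
      set u : W.H X := W.cl X a - ∑ i, ((q i / s i : ℚ) : W.K) • y i with hu
      have hsum : ∑ i, ((q i / s i : ℚ) : W.K) • y i ∈ algClasses W X e := by
        have : ∀ S : Finset ι, ∑ i ∈ S, ((q i / s i : ℚ) : W.K) • y i ∈ algClasses W X e := by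
          intro S
          induction S using Finset.induction_on with
          | empty => rw [Finset.sum_empty]; exact alg_zero e
          | insert a S ha ih =>
            rw [Finset.sum_insert ha]
            exact alg_add (alg_smul _ (hyi a)) ih
        exact this _
      have hum : u ∈ algClasses W X e := by
        rw [hu, sub_eq_add_neg]
        exact alg_add ⟨a, ha, rfl⟩ (alg_neg hsum)
      have hu0 : ∀ i, bf W X D f u (y i) = 0 := by
        intro i
        rw [hu, map_sub, LinearMap.sub_apply, map_sum (bf W X D f), LinearMap.sum_apply,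
          Finset.sum_eq_single i]
        · rw [map_smul, LinearMap.smul_apply, hs, hq, smul_eq_mul, ← Rat.cast_mul,
            div_mul_cancel₀ _ (hs0 i), sub_self]
        · intro j _ hj
          rw [map_smul, LinearMap.smul_apply, horth j i hj, smul_zero]
        · intro h; exact absurd (Finset.mem_univ _) h
      have h1 : interNumbers ops X e ⟨a, ha⟩ =
          ∑ i, (q i / s i : ℚ) • interNumbers ops X e ⟨z i, hz i⟩ := by
        funext b
        obtain ⟨b, hb⟩ := b
        have h2 : W.cl X b ∈ algClasses W X e := ⟨b, by rwa [he'] at hb, rfl⟩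
        have h3 := hrad u hum hu0 _ (hst _ h2)
        rw [bf_apply, G.st_st_apply] at h3
        have h4 : ((interNumbers ops X e ⟨a, ha⟩ ⟨b, hb⟩ : ℚ) : W.K) =
            (((∑ i, (q i / s i : ℚ) • interNumbers ops X e ⟨z i, hz i⟩) ⟨b, hb⟩ : ℚ) : W.K) := by
          rw [Finset.sum_apply, Rat.cast_sum, hval]
          simp only [Pi.smul_apply, smul_eq_mul, Rat.cast_mul]
          rw [hu, sub_mul, map_sub, sub_eq_zero, Finset.sum_mul, map_sum] at h3
          rw [h3]
          apply Finset.sum_congr rfl
          intro i _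
          rw [hval, hzy, smul_mul_assoc, map_smul, smul_eq_mul]
        exact_mod_cast h4
      rw [SetLike.mem_coe, h1]
      exact Submodule.sum_mem _ fun i _ => Submodule.smul_mem _ _
        (Submodule.subset_span ⟨i, rfl⟩)
    · apply Submodule.span_mono
      rintro _ ⟨i, rfl⟩
      exact ⟨_, rfl⟩
  rw [numRank, hspan, finrank_span_eq_card hli]

end Pool.Agent.Run7.h192.Sgn
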