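import Pool.Agent.W539.Ker.Fam
import Pool.Agent.W539.Ker.Ops

/-!
# Neutral projectors and their products
-/

set_option autoImplicit false

open CategoryTheory AlgebraicGeometry Finset

open scoped TensorProduct

universe u v

namespace Pool.Agent.Run7.h192.Sgn

open Pool.Agent.H914 Pool.Agent.H914.VarClass Pool.Agent.H914.VarClass.Obj
  Pool.Agent.H914.WeilCohomology Pool.Agent.H281R3.HT Pool.Agent.W552 Pool.Agent.W539.Ker

variable {k : Type u} [Field k] {𝒱 : VarClass k} {ops : CycleOps 𝒱}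
  {W : WeilCohomology.{u, v} ops} {X Y Z : 𝒱.Obj}

/-- Two bilinear forms on a product which agree on external products are equal. -/
lemma bil_ext {β γ : W.H (X.prod Y) →ₗ[W.K] W.H (X.prod Y) →ₗ[W.K] W.K}
    (h : ∀ a b a' b', β (ext W a b) (ext W a' b') = γ (ext W a b) (ext W a' b')) : β = γ := by
  apply ext_kunneth_lin
  intro a b
  apply ext_kunneth_lin
  intro a' b'
  exact h a b a' b'

lemma extOp_ext (φ : Module.End W.K (W.H X)) (ψ : Module.End W.K (W.H Y)) (a : W.H X)
    (b : W.H Y) : extOp W φ ψ (ext W a b) = ext W (φ a) (ψ b) := extOp_tmul φ ψ a b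

lemma hm_zero_iff {u : Module.End W.K (W.H X)} : Hm W 0 u ↔
    wt (W.isInternal X) X.dim * u = u * wt (W.isInternal X) X.dim := by
  rw [Hm]
  constructor
  · intro h
    have h1 : wt (W.isInternal X) X.dim ∘ₗ u = u ∘ₗ wt (W.isInternal X) X.dim := by
      rw [h]; simp
    exact h1
  · intro h
    have h1 : wt (W.isInternal X) X.dim ∘ₗ u = u ∘ₗ wt (W.isInternal X) X.dim := h
    rw [h1]; simp

/-- External products of operators of weight zero have weight zero. -/
lemma hm_ext {φ : Module.End W.K (W.H X)} {ψ : Module.End W.K (W.H Y)} (h : Hm W 0 φ)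
    (h' : Hm W 0 ψ) : Hm W 0 (extOp W φ ψ) := by
  rw [hm_zero_iff] at h h' ⊢
  rw [wt_prod, extSum, extL_apply, extR_apply, add_mul, mul_add, extOp_mul, extOp_mul, extOp_mul,
    extOp_mul, one_mul, one_mul, mul_one, mul_one, h, h']

/-- A self-adjoint algebraic projector of weight zero. -/
structure SI (W : WeilCohomology.{u, v} ops) (X : 𝒱.Obj) (D : X.Cycles)
    (f Q : Module.End W.K (W.H X)) : Prop where
  ao : AOp W X X Q
  hm : Hm W 0 Q
  sq : Q * Q = Q
  sa : ∀ x y, bf W X D f (Q x) y = bf W X D f x (Q y)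

/-- A projector `Q` with an operator `J` on its range which changes the sign of the form. -/
structure Neu (W : WeilCohomology.{u, v} ops) (X : 𝒱.Obj) (D : X.Cycles)
    (f Q J : Module.End W.K (W.H X)) (c : ℚ) : Prop where
  si : SI W X D f Q
  Ja : AOp W X X J
  Jw : Hm W 0 J
  QJ : Q * J = J
  pos : 0 < c
  JJ : ∀ x y, bf W X D f (J x) (J y) = -(c : W.K) * bf W X D f (Q x) y

lemma SI.one {D : X.Cycles} {f : Module.End W.K (W.H X)} : SI W X D f 1 where
  ao := AOp.one
  hm := Hm.one
  sq := one_mul 1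
  sa _ _ := rfl

lemma SI.bf_sq {D : X.Cycles} {f Q : Module.End W.K (W.H X)} (h : SI W X D f Q) (x y : W.H X) :
    bf W X D f (Q x) (Q y) = bf W X D f (Q x) y := by
  rw [← h.sa, ← Module.End.mul_apply, h.sq]

section Prod

variable {D : X.Cycles} {f : Module.End W.K (W.H X)} {E : Y.Cycles} {g : Module.End W.K (W.H Y)}
  (F : Fr W X D f) (G : Fr W Y E g)

include F G

lemma SI.ext {Q : Module.End W.K (W.H X)} {R : Module.End W.K (W.H Y)} (h : SI W X D f Q)
    (h' : SI W Y E g R) : SI W (X.prod Y) (ops.pull (fst X Y) D + ops.pull (snd X Y) E)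
      (extSum W f g) (extOp W Q R) where
  ao := h.ao.ext h'.ao
  hm := hm_ext h.hm h'.hm
  sq := by rw [extOp_mul, h.sq, h'.sq]
  sa := by
    have key : (bf W (X.prod Y) (ops.pull (fst X Y) D + ops.pull (snd X Y) E)
        (extSum W f g)) ∘ₗ (extOp W Q R) = (bf W (X.prod Y) (ops.pull (fst X Y) D +
          ops.pull (snd X Y) E) (extSum W f g)).compl₂ (extOp W Q R) := by
      apply bil_ext
      intro a b a' b'
      rw [LinearMap.comp_apply, LinearMap.compl₂_apply, extOp_ext, extOp_ext, F.bf_ext G,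
        F.bf_ext G, h.sa, h'.sa]
    intro x y
    exact congrArg (fun β => β x y) key

lemma jj_aux {A A' Q : Module.End W.K (W.H X)} {B B' R : Module.End W.K (W.H Y)} {s : W.K}
    (h : ∀ a a' b b', bf W X D f (A a) (A' a') * bf W Y E g (B b) (B' b') =
      s * (bf W X D f (Q a) a' * bf W Y E g (R b) b')) (x y : W.H (X.prod Y)) :
    bf W (X.prod Y) (ops.pull (fst X Y) D + ops.pull (snd X Y) E) (extSum W f g)
      (extOp W A B x) (extOp W A' B' y) =
    s * bf W (X.prod Y) (ops.pull (fst X Y) D + ops.pull (snd X Y) E) (extSum W f g)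
      (extOp W Q R x) y := by
  have key : ((bf W (X.prod Y) (ops.pull (fst X Y) D + ops.pull (snd X Y) E)
      (extSum W f g)) ∘ₗ (extOp W A B)).compl₂ (extOp W A' B') =
      s • ((bf W (X.prod Y) (ops.pull (fst X Y) D + ops.pull (snd X Y) E)
      (extSum W f g)) ∘ₗ (extOp W Q R)) := by
    apply bil_ext
    intro a b a' b'
    rw [LinearMap.compl₂_apply, LinearMap.comp_apply, LinearMap.smul_apply, LinearMap.smul_apply,
      LinearMap.comp_apply, extOp_ext, extOp_ext, extOp_ext, F.bf_ext G, F.bf_ext G, h, smul_eq_mul]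
  exact congrArg (fun β => β x y) key

lemma Neu.ext_left {Q J : Module.End W.K (W.H X)} {c : ℚ} {R : Module.End W.K (W.H Y)}
    (h : Neu W X D f Q J c) (h' : SI W Y E g R) :
    Neu W (X.prod Y) (ops.pull (fst X Y) D + ops.pull (snd X Y) E)
      (extSum W f g) (extOp W Q R) (extOp W J R) c where
  si := h.si.ext F G h'
  Ja := h.Ja.ext h'.ao
  Jw := hm_ext h.Jw h'.hm
  QJ := by rw [extOp_mul, h.QJ, h'.sq]
  pos := h.pos
  JJ := jj_aux F G fun a a' b b' => by rw [h.JJ, h'.bf_sq]; ring

lemma Neu.ext_right {Q J : Module.End W.K (W.H Y)} {c : ℚ} {R : Module.End W.K (W.H X)}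
    (h' : SI W X D f R) (h : Neu W Y E g Q J c) :
    Neu W (X.prod Y) (ops.pull (fst X Y) D + ops.pull (snd X Y) E)
      (extSum W f g) (extOp W R Q) (extOp W R J) c where
  si := h'.ext F G h.si
  Ja := h'.ao.ext h.Ja
  Jw := hm_ext h'.hm h.Jw
  QJ := by rw [extOp_mul, h.QJ, h'.sq]
  pos := h.pos
  JJ := jj_aux F G fun a a' b b' => by rw [h.JJ, h'.bf_sq]; ring

end Prod

/-- The cohomology is the orthogonal sum of the ranges of neutral projectors and of a projector of
rank at most `ρ`. -/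
def AD (W : WeilCohomology.{u, v} ops) (X : 𝒱.Obj) (D : X.Cycles)
    (f : Module.End W.K (W.H X)) (ρ : ℕ) : Prop :=
  ∃ (ι : Type) (_ : Fintype ι) (Q J : ι → Module.End W.K (W.H X)) (c : ι → ℚ)
    (R : Module.End W.K (W.H X)), SI W X D f R ∧ (∀ i, Neu W X D f (Q i) (J i) (c i)) ∧
    (∀ i j, i ≠ j → Q i * Q j = 0) ∧ (∀ i, R * Q i = 0) ∧ (∀ i, Q i * R = 0) ∧
    R + ∑ i, Q i = 1 ∧ Module.finrank W.K (LinearMap.range R) ≤ ρ

lemma AD.triv {D : X.Cycles} {f : Module.End W.K (W.H X)} :
    AD W X D f (Module.finrank W.K (W.H X)) := by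
  refine ⟨Empty, inferInstance, Empty.elim, Empty.elim, Empty.elim, 1, SI.one,
    fun i => i.elim, fun i => i.elim, fun i => i.elim, fun i => i.elim, by simp, ?_⟩
  exact Submodule.finrank_le _

lemma finrank_range_ext (φ : Module.End W.K (W.H X)) (ψ : Module.End W.K (W.H Y)) :
    Module.finrank W.K (LinearMap.range (extOp W φ ψ)) ≤
      Module.finrank W.K (LinearMap.range φ) * Module.finrank W.K (LinearMap.range ψ) := by
  have h1 : extOp W φ ψ = ((kappa W X Y).toLinearMap ∘ₗ
      TensorProduct.map (LinearMap.range φ).subtype (LinearMap.range ψ).subtype) ∘ₗ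
      (TensorProduct.map φ.rangeRestrict ψ.rangeRestrict ∘ₗ
        (kappa W X Y).symm.toLinearMap) := by
    have h2 : TensorProduct.map φ ψ = TensorProduct.map (LinearMap.range φ).subtype
        (LinearMap.range ψ).subtype ∘ₗ TensorProduct.map φ.rangeRestrict ψ.rangeRestrict := by
      rw [← TensorProduct.map_comp]
      rfl
    rw [extOp, h2]
    rfl
  rw [h1]
  refine (Submodule.finrank_mono (LinearMap.range_comp_le_range _ _)).trans ?_
  refine (LinearMap.finrank_range_le _).trans ?_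
  rw [Module.finrank_tensorProduct]

theorem AD.prod {D : X.Cycles} {f : Module.End W.K (W.H X)} {E : Y.Cycles}
    {g : Module.End W.K (W.H Y)} (F : Fr W X D f) (G : Fr W Y E g) {ρ ρ' : ℕ}
    (h : AD W X D f ρ) (h' : AD W Y E g ρ') :
    AD W (X.prod Y) (ops.pull (fst X Y) D + ops.pull (snd X Y) E) (extSum W f g) (ρ * ρ') := by
  obtain ⟨ι, _, Q, J, c, R, hR, hQ, hQQ, hRQ, hQR, hs, hr⟩ := h
  obtain ⟨ι', _, Q', J', c', R', hR', hQ', hQQ', hRQ', hQR', hs', hr'⟩ := h'
  refine ⟨ι ⊕ ι', inferInstance, Sum.elim (fun i => extOp W (Q i) R') (fun j => extOp W 1 (Q' j)),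
    Sum.elim (fun i => extOp W (J i) R') (fun j => extOp W 1 (J' j)), Sum.elim c c',
    extOp W R R', hR.ext F G hR', ?_, ?_, ?_, ?_, ?_, ?_⟩
  · rintro (i | j)
    · exact (hQ i).ext_left F G hR'
    · exact (hQ' j).ext_right F G SI.one
  · rintro (i | j) (i' | j') hne
    · simp only [Sum.elim_inl]
      rw [extOp_mul, hQQ i i' (fun h => hne (by rw [h])), extOp_zero_left]
    · simp only [Sum.elim_inl, Sum.elim_inr]
      rw [extOp_mul, hRQ', extOp_zero_right]
    · simp only [Sum.elim_inl, Sum.elim_inr]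
      rw [extOp_mul, hQR', extOp_zero_right]
    · simp only [Sum.elim_inr]
      rw [extOp_mul, hQQ' j j' (fun h => hne (by rw [h])), extOp_zero_right]
  · rintro (i | j)
    · simp only [Sum.elim_inl]
      rw [extOp_mul, hRQ, extOp_zero_left]
    · simp only [Sum.elim_inr]
      rw [extOp_mul, hRQ', extOp_zero_right]
  · rintro (i | j)
    · simp only [Sum.elim_inl]
      rw [extOp_mul, hQR, extOp_zero_left]
    · simp only [Sum.elim_inr]
      rw [extOp_mul, hQR', extOp_zero_right]
  · rw [Fintype.sum_sum_type]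
    simp only [Sum.elim_inl, Sum.elim_inr]
    rw [← extOp_sum, ← extOp_sum', ← add_assoc, ← extOp_add_left, hs, ← extOp_add_right, hs',
      extOp_one]
  · exact (finrank_range_ext R R').trans (Nat.mul_le_mul hr hr')

end Pool.Agent.Run7.h192.Sgn
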