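import Pool.Agent.Run7.h192.Sgn.Count
import Pool.Agent.R940.KBase
import Pool.Agent.X310.Mom5

/-!
# The zero-one law for the standard conjecture of Hodge type
-/

set_option autoImplicit false

open CategoryTheory AlgebraicGeometry Finset Filter Topology

universe u v

namespace Pool.Agent.Run7.h192.Sgn

open Pool.Agent.H914 Pool.Agent.H914.VarClass Pool.Agent.H914.VarClass.Obj
  Pool.Agent.H914.WeilCohomology Pool.Agent.H281R3.HT Pool.Agent.W552 Pool.Agent.W539.Ker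
open Pool.Agent.W534 (numRank)
open Pool.Agent.Y163 (pw sq dim_pw finrank_pw)

variable {k : Type u} [Field k] {𝒱 : VarClass k} {ops : CycleOps 𝒱}
  {W : WeilCohomology.{u, v} ops} {X Y Z : 𝒱.Obj} {D : X.Cycles} {f : Module.End W.K (W.H X)}

/-- The lowering operator on the powers. -/
noncomputable def pwf (f : Module.End W.K (W.H X)) : ∀ n, Module.End W.K (W.H (pw X n))
  | 0 => f
  | n + 1 => extSum W f (pwf f n)

lemma fr_pw (F : Fr W X D f) : ∀ n, Fr W (pw X n) (pwDiv ops X D n) (pwf f n)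
  | 0 => F
  | n + 1 => F.prod (fr_pw F n)

lemma sy_pw (F : Fr W X D f) (h : Sy W X D f) : ∀ n, Sy W (pw X n) (pwDiv ops X D n) (pwf f n)
  | 0 => h
  | n + 1 => Sy.prod F (fr_pw F n) h (sy_pw F h n)

lemma ad_pw (F : Fr W X D f) {ρ : ℕ} (h : AD W X D f ρ) :
    ∀ n, AD W (pw X n) (pwDiv ops X D n) (pwf f n) (ρ ^ (n + 1))
  | 0 => by rw [zero_add, pow_one]; exact h
  | n + 1 => by
    rw [pow_succ' ρ (n + 1)]
    exact AD.prod F (fr_pw F n) h (ad_pw F h n)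

lemma IsLefschetz.gd {P : Polarized 𝒱} (h : IsLefschetz W P) : ∃ f, Gd W P.X P.D f :=
  exists_gd h.cyc h.hard h.lef

/-- The parity operator is algebraic. -/
lemma IsLefschetz.par {P : Polarized 𝒱} (h : IsLefschetz W P) :
    par (W.isInternal P.X) ∈ KOp W P.X P.X 0 := by
  obtain ⟨Φ, hΦ, hLam⟩ := lefschetzB_iff_rop.1 h.lef
  have hp : ∀ i, proj (W.isInternal P.X) i ∈ KOp W P.X P.X 0 := fun i =>
    KOp.ofRop (rop_opAlg.proj_mem (W.isInternal P.X) W_hbd (rop_mulLeft h.cyc) h.hard hΦ hLam i)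
  rw [H914.par, scal_eq_sum (W.isInternal P.X) (N := 2 * P.X.dim + 1) W_hbd]
  exact Submodule.sum_mem _ fun i _ => Submodule.smul_mem _ _ (hp i)

lemma isLefschetz_prod {P R : Polarized 𝒱} (h : IsLefschetz W P) (h' : IsLefschetz W R) :
    IsLefschetz W (P.prod ops R) := by
  refine ⟨SmVar.IsCyc.add (ops.pull_mem _ h.cyc) (ops.pull_mem _ h'.cyc), ?_,
    Pool.Agent.TH125.Gal.hardLefschetz_prod h.cyc h'.cyc h.hard h'.hard,
    Pool.Agent.X310.Mom.lefschetzB_prod h.cyc h'.cyc h.hard h'.hard h.lef h'.lef⟩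
  obtain ⟨f, G⟩ := h.gd
  obtain ⟨g, G'⟩ := h'.gd
  have hval : ∀ {Z : 𝒱.Obj} {E : Z.Cycles} {e : Module.End W.K (W.H Z)} (F : Fr W Z E e),
      bf W Z E e 1 1 = (((Z.dim.factorial : ℚ)⁻¹ *
        Z.V.degCycle (divPow ops E Z.dim Z.V.fundCycle) : ℚ) : W.K) := by
    intro Z E e F
    have hfund : Primitive W Z E 0 Z.V.fundCycle := by
      refine ⟨Z.V.fundCycle_mem, ?_⟩
      have h2 := W.cl_mem (divPow_mem (ops := ops) F.hD (Z.dim - 2 * 0 + 1) Z.V.fundCycle_mem)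
      rw [W.gr_eq_bot _ _ (by omega)] at h2
      exact (Submodule.mem_bot _).1 h2
    have h1 := bf_same F (n := 0) (by omega) hfund hfund (j := 0) (by omega)
    rw [pow_zero, Module.End.one_apply, W.cl_fund] at h1
    rw [h1]
    congr 1
    have hn := divPow_mem (ops := ops) F.hD Z.dim hfund.1
    rw [zero_add] at hn
    have h3 := ops.mul_mem hfund.1 hn
    rw [zero_add] at h3
    have h4 : ((Z.V.degCycle (ops.mul Z.V.fundCycle (divPow ops E Z.dim Z.V.fundCycle)) : ℚ) :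
        W.K) = ((Z.V.degCycle (divPow ops E Z.dim Z.V.fundCycle) : ℚ) : W.K) := by
      rw [← W.tr_cl h3, ← W.tr_cl hn, W.cl_mul, W.cl_fund, one_mul]
    have h5 : Z.V.degCycle (ops.mul Z.V.fundCycle (divPow ops E Z.dim Z.V.fundCycle)) =
        Z.V.degCycle (divPow ops E Z.dim Z.V.fundCycle) := by exact_mod_cast h4
    rw [pairing, pow_zero, one_mul, mul_zero, Nat.sub_zero, Nat.sub_zero, h5,
      Nat.factorial_zero, Nat.cast_one, one_mul]
  have h1 := G.fr.bf_ext G'.fr (1 : W.H P.X) (1 : W.H P.X) (1 : W.H R.X) (1 : W.H R.X)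
  have h2 : ext W (1 : W.H P.X) (1 : W.H R.X) = 1 := by
    rw [H281R3.HT.ext, map_one, map_one, one_mul]
  rw [h2, hval G.fr, hval G'.fr, hval (G.fr.prod G'.fr), ← Rat.cast_mul] at h1
  have h3 : (((P.X.prod R.X).dim.factorial : ℚ)⁻¹ * (P.X.prod R.X).V.degCycle
      (divPow ops (ops.pull (fst P.X R.X) P.D + ops.pull (snd P.X R.X) R.D)
        (P.X.prod R.X).dim (P.X.prod R.X).V.fundCycle)) =
      ((P.X.dim.factorial : ℚ)⁻¹ * P.X.V.degCycle (divPow ops P.D P.X.dim P.X.V.fundCycle)) *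
        ((R.X.dim.factorial : ℚ)⁻¹ *
          R.X.V.degCycle (divPow ops R.D R.X.dim R.X.V.fundCycle)) := by exact_mod_cast h1
  have hf : ∀ m : ℕ, (0 : ℚ) < (m.factorial : ℚ)⁻¹ := fun m =>
    inv_pos.2 (by exact_mod_cast Nat.factorial_pos m)
  have h4 : 0 < ((P.X.prod R.X).dim.factorial : ℚ)⁻¹ * (P.X.prod R.X).V.degCycle
      (divPow ops (ops.pull (fst P.X R.X) P.D + ops.pull (snd P.X R.X) R.D)
        (P.X.prod R.X).dim (P.X.prod R.X).V.fundCycle) := by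
    rw [h3]
    exact mul_pos (mul_pos (hf _) h.deg) (mul_pos (hf _) h'.deg)
  exact (mul_pos_iff_of_pos_left (hf _)).1 h4

lemma isLefschetz_pw {P : Polarized 𝒱} (h : IsLefschetz W P) : ∀ n, IsLefschetz W (pwPol ops P n)
  | 0 => h
  | n + 1 => isLefschetz_prod h (isLefschetz_pw h n)

lemma wsum_mid {d e : ℕ} (hd : d = 2 * e) (σ : ℕ → ℤ) : wsum d σ 0 =
    ∑ n ∈ range (d / 2 + 1), σ n := by
  apply Finset.sum_congr rfl
  intro n hn
  rw [Finset.mem_range] at hn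
  rw [if_pos]
  rw [abs_zero]
  omega

lemma posSq_sub (W : WeilCohomology.{u, v} ops) {P : Polarized 𝒱} {e : ℕ}
    (hd : P.X.dim = 2 * e) :
    (posSq W P : ℤ) - negSq W P = wsum P.X.dim (sig W P.X P.D) 0 := by
  rw [wsum_mid hd, posSq, negSq, Nat.cast_sum, Nat.cast_sum, ← Finset.sum_sub_distrib]
  rfl

lemma dim_sqPol (P : Polarized 𝒱) (n : ℕ) :
    (sqPol ops P n).X.dim = 2 * ((n + 1) * P.X.dim) := by
  change ((pw P.X n).prod (pw P.X n)).dim = _
  rw [dim_prod, dim_pw]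
  ring

/-- **The rank and its growth.** -/
theorem rank_eq {P : Polarized 𝒱} (h : IsLefschetz W P) (n : ℕ) :
    posSq W (sqPol ops P n) + negSq W (sqPol ops P n) =
      numRank ops (sqPol ops P n).X ((n + 1) * P.X.dim) ∧
    betti W P.X ^ (2 * n + 2) ≤ (posSq W (sqPol ops P n) + negSq W (sqPol ops P n)) *
      (n + 2) ^ (betti W P.X ^ 2) := by
  have hp := isLefschetz_pw (ops := ops) h n
  obtain ⟨f, G⟩ := (isLefschetz_prod hp hp).gd
  have h1 := numRank_mid G (dim_sqPol P n)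
  have h2 : (sqPol ops P n).X.dim / 2 + 1 = (n + 1) * P.X.dim + 1 := by
    rw [dim_sqPol]; omega
  have h3 : posSq W (sqPol ops P n) + negSq W (sqPol ops P n) =
      numRank ops (sqPol ops P n).X ((n + 1) * P.X.dim) := by
    rw [posSq, negSq, h2, ← Finset.sum_add_distrib]
    exact h1.symm
  refine ⟨h3, ?_⟩
  rw [h3]
  have h4 := Pool.Agent.R940.growth_any h.par n
  rw [← pow_mul] at h4
  exact h4

lemma tendsto_half {p q : ℕ → ℕ} {b c B : ℕ} (hcb : c < b)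
    (h1 : ∀ n, |(p n : ℤ) - q n| ≤ (c : ℤ) ^ (2 * n + 2))
    (h2 : ∀ n, b ^ (2 * n + 2) ≤ (p n + q n) * (n + 2) ^ B) :
    Tendsto (fun n => (p n : ℝ) / (p n + q n)) atTop (𝓝 (1 / 2)) := by
  have hb : (0 : ℝ) < b := by exact_mod_cast (Nat.zero_le c).trans_lt hcb
  set r : ℝ := ((c : ℝ) / b) ^ 2 with hr
  have hr0 : 0 ≤ r := by positivity
  have hr1 : |r| < 1 := by
    rw [abs_of_nonneg hr0, hr]
    apply pow_lt_one₀ (by positivity) _ two_ne_zero
    rw [div_lt_one hb]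
    exact_mod_cast hcb
  have h3 := (tendsto_pow_const_mul_const_pow_of_abs_lt_one B hr1).comp (tendsto_add_atTop_nat 1)
  have h4 := h3.const_mul ((2 : ℝ) ^ B)
  rw [mul_zero] at h4
  rw [tendsto_iff_dist_tendsto_zero]
  refine squeeze_zero (fun n => dist_nonneg) (fun n => ?_) h4
  have hs : (0 : ℝ) < (p n : ℝ) + q n := by
    have h5 := h2 n
    have h6 : 0 < b ^ (2 * n + 2) := pow_pos (by exact_mod_cast hb) _
    have h7 : 0 < p n + q n := by
      rcases Nat.eq_zero_or_pos (p n + q n) with h0 | h0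
      · rw [h0, zero_mul] at h5; omega
      · exact h0
    exact_mod_cast h7
  rw [Real.dist_eq]
  have e1 : (p n : ℝ) / (p n + q n) - 1 / 2 = ((p n : ℝ) - q n) / (2 * (p n + q n)) := by
    field_simp; ring
  have e2 : |(p n : ℝ) - q n| ≤ (c : ℝ) ^ (2 * n + 2) := by exact_mod_cast h1 n
  have e3 : (b : ℝ) ^ (2 * n + 2) ≤ ((p n : ℝ) + q n) * ((n : ℝ) + 2) ^ B := by
    exact_mod_cast h2 n
  rw [e1, abs_div, abs_of_pos (by positivity : (0 : ℝ) < 2 * ((p n : ℝ) + q n)),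
    div_le_iff₀ (by positivity)]
  have e4 : ((n : ℝ) + 2) ^ B ≤ 2 ^ B * ((n + 1 : ℕ) : ℝ) ^ B := by
    rw [← mul_pow]
    apply pow_le_pow_left₀ (by positivity)
    push_cast
    have : (0 : ℝ) ≤ n := Nat.cast_nonneg n
    linarith
  have e5 : (c : ℝ) ^ (2 * n + 2) = (b : ℝ) ^ (2 * n + 2) * r ^ (n + 1) := by
    rw [hr, ← pow_mul, div_pow, show 2 * (n + 1) = 2 * n + 2 by ring]
    field_simp
  have e6 : (0 : ℝ) ≤ r ^ (n + 1) := by positivity
  change _ ≤ 2 ^ B * (((n + 1 : ℕ) : ℝ) ^ B * r ^ (n + 1)) * (2 * ((p n : ℝ) + q n))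
  calc |(p n : ℝ) - q n| ≤ (b : ℝ) ^ (2 * n + 2) * r ^ (n + 1) := by rw [← e5]; exact e2
    _ ≤ (((p n : ℝ) + q n) * ((n : ℝ) + 2) ^ B) * r ^ (n + 1) :=
        mul_le_mul_of_nonneg_right e3 e6
    _ ≤ (((p n : ℝ) + q n) * (2 ^ B * ((n + 1 : ℕ) : ℝ) ^ B)) * r ^ (n + 1) :=
        mul_le_mul_of_nonneg_right (mul_le_mul_of_nonneg_left e4 hs.le) e6
    _ ≤ (((p n : ℝ) + q n) * (2 ^ B * ((n + 1 : ℕ) : ℝ) ^ B)) * r ^ (n + 1) * 2 := by
        have : 0 ≤ (((p n : ℝ) + q n) * (2 ^ B * ((n + 1 : ℕ) : ℝ) ^ B)) * r ^ (n + 1) := by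
          positivity
        linarith
    _ = _ := by ring

/-- **Failure of the conjecture in one codimension.** -/
theorem balanced_of_neg {P : Polarized 𝒱} (h : IsLefschetz W P) {j : ℕ} (hj1 : 1 ≤ j)
    (hj : 2 * j ≤ P.X.dim) {z : P.X.Cycles} (hz : Primitive W P.X P.D j z)
    (hneg : pairing ops P.X P.D j z z < 0) :
    betti W P.X - 2 * (P.X.dim - 2 * j + 1) < betti W P.X ∧
      Balanced W P (betti W P.X - 2 * (P.X.dim - 2 * j + 1)) := by
  obtain ⟨f, G⟩ := h.gd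
  have hAD := AD.of_neg G h.deg hj1 hj hz hneg
  set c := betti W P.X - 2 * (P.X.dim - 2 * j + 1) with hc
  have hAD' : AD W P.X P.D f c := hAD
  have hb : 0 < betti W P.X := by
    have htr : W.cl P.X (divPow ops P.D P.X.dim P.X.V.fundCycle) ≠ 0 := by
      intro h0
      have hn := divPow_mem (ops := ops) h.cyc P.X.dim P.X.V.fundCycle_mem
      rw [zero_add] at hn
      have h1 := W.tr_cl hn
      rw [h0, map_zero] at h1
      have h2 := h.deg
      have h3 : (P.X.V.degCycle (divPow ops P.D P.X.dim P.X.V.fundCycle) : ℚ) = 0 := by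
        exact_mod_cast h1.symm
      rw [h3] at h2
      exact lt_irrefl _ h2
    have : Nontrivial (W.H P.X) := ⟨_, _, htr⟩
    exact Module.finrank_pos
  have hcb : c < betti W P.X := by omega
  have hmid : ∀ n, |(posSq W (sqPol ops P n) : ℤ) - negSq W (sqPol ops P n)| ≤
      (c : ℤ) ^ (2 * n + 2) := by
    intro n
    rw [posSq_sub W (dim_sqPol P n)]
    have h1 := AD.prod (fr_pw G.fr n) (fr_pw G.fr n) (ad_pw G.fr hAD' n) (ad_pw G.fr hAD' n)
    have h2 := (h1.sig_le ((fr_pw G.fr n).prod (fr_pw G.fr n))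
      (Sy.prod (fr_pw G.fr n) (fr_pw G.fr n) (sy_pw G.fr G.sy n) (sy_pw G.fr G.sy n))).1 0
    have h3 : c ^ (n + 1) * c ^ (n + 1) = c ^ (2 * n + 2) := by ring
    rw [h3] at h2
    exact_mod_cast h2
  refine ⟨hcb, ⟨?_, ?_, hmid, ?_⟩⟩
  · intro n i hi
    have h2 := ((ad_pw G.fr hAD' n).sig_le (fr_pw G.fr n) (sy_pw G.fr G.sy n)).2 i hi
    exact_mod_cast h2
  · intro R hR n i hi
    obtain ⟨g, G'⟩ := hR.gd
    have h1 := AD.prod G'.fr (fr_pw G.fr n) (AD.triv (W := W) (D := R.D) (f := g))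
      (ad_pw G.fr hAD' n)
    have h2 := (h1.sig_le (G'.fr.prod (fr_pw G.fr n))
      (Sy.prod G'.fr (fr_pw G.fr n) G'.sy (sy_pw G.fr G.sy n))).2 i hi
    exact_mod_cast h2
  · exact tendsto_half hcb hmid fun n => (rank_eq h n).2

/-- Failure of the conjecture modulo numerical equivalence. -/
lemma exists_neg {P : Polarized 𝒱} (h : IsLefschetz W P) (hH : ¬ HodgeNum W P) :
    ∃ j, 1 ≤ j ∧ 2 * j ≤ P.X.dim ∧ ∃ z, Primitive W P.X P.D j z ∧
      pairing ops P.X P.D j z z < 0 := by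
  rw [HodgeNum] at hH
  push Not at hH
  obtain ⟨j, hj, z, hz, hneg⟩ := hH
  rcases Nat.eq_zero_or_pos j with rfl | h0
  swap
  · exact ⟨j, h0, hj, z, hz, hneg⟩
  exfalso
  set δ := P.X.V.degCycle (divPow ops P.D P.X.dim P.X.V.fundCycle) with hδ
  have hδ0 : 0 < δ := h.deg
  have hδK : (δ : W.K) ≠ 0 := by exact_mod_cast hδ0.ne'
  have hm := W.cl_mem hz.1
  rw [mul_zero, W.gr_zero, Submodule.mem_span_singleton] at hm
  obtain ⟨a, ha⟩ := hm
  have hn := divPow_mem (ops := ops) h.cyc P.X.dim P.X.V.fundCycle_mem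
  rw [zero_add] at hn
  have htr : W.tr P.X (((LinearMap.mulLeft W.K (W.cl P.X P.D)) ^ P.X.dim) 1) = (δ : W.K) := by
    rw [hδ, ← W.tr_cl hn, cl_divPow, W.cl_fund]
  have h1 := pairing_cast (W := W) h.cyc (n := 0) (by omega) hz.1 hz.1
  have h2 := pairing_cast (W := W) h.cyc (n := 0) (by omega) hz.1 P.X.V.fundCycle_mem
  rw [pow_zero, one_mul, mul_zero, Nat.sub_zero, ← ha, map_smul, smul_mul_smul_comm, one_mul,
    map_smul, htr, smul_eq_mul] at h1
  rw [pow_zero, one_mul, mul_zero, Nat.sub_zero, W.cl_fund, ← ha, smul_mul_assoc, one_mul,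
    map_smul, htr, smul_eq_mul] at h2
  set q := pairing ops P.X P.D 0 z P.X.V.fundCycle with hq
  have h3 : a = ((q / δ : ℚ) : W.K) := by
    rw [Rat.cast_div, h2, mul_div_assoc, div_self hδK, mul_one]
  rw [h3] at h1
  have h4 : pairing ops P.X P.D 0 z z = (q / δ) * (q / δ) * δ := by exact_mod_cast h1
  rw [h4] at hneg
  have h5 : 0 ≤ (q / δ) * (q / δ) * δ := mul_nonneg (mul_self_nonneg _) hδ0.le
  linarith

/-- **The zero-one law.** -/
theorem main {P : Polarized 𝒱} (h : IsLefschetz W P) :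
    (∀ n, posSq W (sqPol ops P n) + negSq W (sqPol ops P n) =
        numRank ops (sqPol ops P n).X ((n + 1) * P.X.dim) ∧
      betti W P.X ^ (2 * n + 2) ≤ (posSq W (sqPol ops P n) + negSq W (sqPol ops P n)) *
        (n + 2) ^ (betti W P.X ^ 2)) ∧
    (HodgeNum W P ∨ ∃ j, 1 ≤ j ∧ 2 * j ≤ P.X.dim ∧
      Balanced W P (betti W P.X - 2 * (P.X.dim - 2 * j + 1))) ∧
    ((∀ κ, HodgeNum W (pwPol ops P κ)) ∨ ∃ κ c, c < betti W P.X ^ (κ + 1) ∧
      Balanced W (pwPol ops P κ) c) := by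
  refine ⟨fun n => rank_eq h n, ?_, ?_⟩
  · by_cases hH : HodgeNum W P
    · exact Or.inl hH
    · obtain ⟨j, hj1, hj, z, hz, hneg⟩ := exists_neg h hH
      exact Or.inr ⟨j, hj1, hj, (balanced_of_neg h hj1 hj hz hneg).2⟩
  · by_cases hH : ∀ κ, HodgeNum W (pwPol ops P κ)
    · exact Or.inl hH
    · push Not at hH
      obtain ⟨κ, hκ⟩ := hH
      obtain ⟨j, hj1, hj, z, hz, hneg⟩ := exists_neg (isLefschetz_pw h κ) hκ
      have h1 := balanced_of_neg (isLefschetz_pw h κ) hj1 hj hz hneg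
      have h2 : betti W (pwPol ops P κ).X = betti W P.X ^ (κ + 1) := finrank_pw κ
      refine Or.inr ⟨κ, _, ?_, h1.2⟩
      rw [← h2]
      exact h1.1

end Pool.Agent.Run7.h192.Sgn
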