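import Pool.Agent.Run7.h192.Sgn.Ext

/-!
# Neutral projectors and signatures
-/

set_option autoImplicit false

open CategoryTheory AlgebraicGeometry Finset

universe u v

namespace Pool.Agent.Run7.h192.Sgn

open Pool.Agent.H914 Pool.Agent.H914.VarClass Pool.Agent.H914.VarClass.Obj
  Pool.Agent.H914.WeilCohomology Pool.Agent.H281R3.HT Pool.Agent.W552 Pool.Agent.W539.Ker

variable {k : Type u} [Field k] {𝒱 : VarClass k} {ops : CycleOps 𝒱}
  {W : WeilCohomology.{u, v} ops} {X Y Z : 𝒱.Obj}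

/-- The cohomology as a rational vector space. -/
@[reducible] noncomputable def ratMod (W : WeilCohomology.{u, v} ops) (X : 𝒱.Obj) :
    Module ℚ (W.H X) := Module.compHom (W.H X) (algebraMap ℚ W.K)

attribute [local instance] ratMod

lemma rat_smul (q : ℚ) (x : W.H X) : q • x = (q : W.K) • x := rfl

/-- The algebraic classes of weight `m` which are fixed by `T`. -/
def MT (W : WeilCohomology.{u, v} ops) (X : 𝒱.Obj) (m : ℤ) (T : Module.End W.K (W.H X)) :
    Submodule ℚ (W.H X) where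
  carrier := {u | (AS W X u ∧ wt (W.isInternal X) X.dim u = (m : W.K) • u) ∧ T u = u}
  add_mem' := by
    rintro a b ⟨⟨h1, h2⟩, h3⟩ ⟨⟨k1, k2⟩, k3⟩
    exact ⟨⟨h1.add k1, by rw [map_add, h2, k2, smul_add]⟩, by rw [map_add, h3, k3]⟩
  zero_mem' := ⟨⟨AS.zero, by simp⟩, map_zero _⟩
  smul_mem' := by
    rintro q a ⟨⟨h1, h2⟩, h3⟩
    refine ⟨⟨h1.smul q, ?_⟩, ?_⟩
    · rw [rat_smul, map_smul, h2, smul_comm]
    · rw [rat_smul, map_smul, h3]

lemma mem_MT {m : ℤ} {T : Module.End W.K (W.H X)} {u : W.H X} :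
    u ∈ MT W X m T ↔ (AS W X u ∧ wt (W.isInternal X) X.dim u = (m : W.K) • u) ∧ T u = u := Iff.rfl

lemma MT_as {m : ℤ} {T : Module.End W.K (W.H X)} : ∀ u ∈ MT W X m T, AS W X u :=
  fun _ hu => hu.1.1

lemma par_of_as {x : W.H X} (hx : AS W X x) : par (W.isInternal X) x = x := by
  refine AS.ind (p := fun x => par (W.isInternal X) x = x) ?_ ?_ hx
  · intro j x hx
    rw [par, scal_apply _ _ (alg_gr hx), pow_mul]
    simp
  · intro y y' hy hy'
    rw [map_add, hy, hy']

section Form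

variable {D : X.Cycles} {f : Module.End W.K (W.H X)} (F : Fr W X D f)

/-- The rational form on a space of algebraic classes. -/
noncomputable def BN (N : Submodule ℚ (W.H X)) (hN : ∀ u ∈ N, AS W X u) :
    N →ₗ[ℚ] N →ₗ[ℚ] ℚ :=
  LinearMap.mk₂ ℚ (fun u v => Classical.choose (F.bf_rat (hN u u.2) (hN v v.2)))
    (fun u u' v => by
      have h1 := Classical.choose_spec (F.bf_rat (hN _ (u + u').2) (hN v v.2))
      have h2 := Classical.choose_spec (F.bf_rat (hN u u.2) (hN v v.2))
      have h3 := Classical.choose_spec (F.bf_rat (hN u' u'.2) (hN v v.2))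
      have h4 : ((Classical.choose (F.bf_rat (hN _ (u + u').2) (hN v v.2)) : ℚ) : W.K) =
          ((Classical.choose (F.bf_rat (hN u u.2) (hN v v.2)) +
            Classical.choose (F.bf_rat (hN u' u'.2) (hN v v.2)) : ℚ) : W.K) := by
        rw [← h1, Rat.cast_add, ← h2, ← h3, Submodule.coe_add, map_add, LinearMap.add_apply]
      exact_mod_cast h4)
    (fun q u v => by
      have h1 := Classical.choose_spec (F.bf_rat (hN _ (q • u).2) (hN v v.2))
      have h2 := Classical.choose_spec (F.bf_rat (hN u u.2) (hN v v.2))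
      have h4 : ((Classical.choose (F.bf_rat (hN _ (q • u).2) (hN v v.2)) : ℚ) : W.K) =
          ((q • Classical.choose (F.bf_rat (hN u u.2) (hN v v.2)) : ℚ) : W.K) := by
        rw [← h1, smul_eq_mul, Rat.cast_mul, ← h2, Submodule.coe_smul, rat_smul, map_smul,
          LinearMap.smul_apply, smul_eq_mul]
      exact_mod_cast h4)
    (fun u v v' => by
      have h1 := Classical.choose_spec (F.bf_rat (hN u u.2) (hN _ (v + v').2))
      have h2 := Classical.choose_spec (F.bf_rat (hN u u.2) (hN v v.2))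
      have h3 := Classical.choose_spec (F.bf_rat (hN u u.2) (hN v' v'.2))
      have h4 : ((Classical.choose (F.bf_rat (hN u u.2) (hN _ (v + v').2)) : ℚ) : W.K) =
          ((Classical.choose (F.bf_rat (hN u u.2) (hN v v.2)) +
            Classical.choose (F.bf_rat (hN u u.2) (hN v' v'.2)) : ℚ) : W.K) := by
        rw [← h1, Rat.cast_add, ← h2, ← h3, Submodule.coe_add, map_add]
      exact_mod_cast h4)
    (fun q u v => by
      have h1 := Classical.choose_spec (F.bf_rat (hN u u.2) (hN _ (q • v).2))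
      have h2 := Classical.choose_spec (F.bf_rat (hN u u.2) (hN v v.2))
      have h4 : ((Classical.choose (F.bf_rat (hN u u.2) (hN _ (q • v).2)) : ℚ) : W.K) =
          ((q • Classical.choose (F.bf_rat (hN u u.2) (hN v v.2)) : ℚ) : W.K) := by
        rw [← h1, smul_eq_mul, Rat.cast_mul, ← h2, Submodule.coe_smul, rat_smul, map_smul,
          smul_eq_mul]
      exact_mod_cast h4)

variable {F}

lemma BN_cast {N : Submodule ℚ (W.H X)} {hN : ∀ u ∈ N, AS W X u} (u v : N) :
    ((BN F N hN u v : ℚ) : W.K) = bf W X D f u v :=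
  (Classical.choose_spec (F.bf_rat (hN u u.2) (hN v v.2))).symm

lemma BN_symm (hs : Sy W X D f) {N : Submodule ℚ (W.H X)} {hN : ∀ u ∈ N, AS W X u} (u v : N) :
    BN F N hN u v = BN F N hN v u := by
  have h : ((BN F N hN u v : ℚ) : W.K) = ((BN F N hN v u : ℚ) : W.K) := by
    rw [BN_cast, BN_cast, hs, par_of_as (hN v v.2)]
  exact_mod_cast h

/-- Orthogonal families of anisotropic vectors are linearly independent. -/
lemma li_orth {n : ℕ} {x : Fin n → W.H X} (h1 : ∀ i, bf W X D f (x i) (x i) ≠ 0)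
    (h2 : ∀ i j, i ≠ j → bf W X D f (x i) (x j) = 0) : LinearIndependent W.K x := by
  rw [Fintype.linearIndependent_iff]
  intro g hg i
  have h3 := congrArg (fun a => bf W X D f a (x i)) hg
  simp only [map_sum, LinearMap.sum_apply, map_smul, LinearMap.smul_apply, map_zero,
    LinearMap.zero_apply, smul_eq_mul] at h3
  rw [Finset.sum_eq_single i] at h3
  · exact (mul_eq_zero.1 h3).resolve_right (h1 i)
  · intro j _ hj
    rw [h2 j i hj, mul_zero]
  · intro h; exact absurd (Finset.mem_univ _) h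

lemma exists_om (hs : Sy W X D f) {N : Submodule ℚ (W.H X)} {hN : ∀ u ∈ N, AS W X u} :
    ∃ n, ∃ x : Fin n → N, OM (BN F N hN) x := by
  apply exists_OM (BN_symm hs) (N := Module.finrank W.K (W.H X))
  intro n x h1 h2
  have h3 := (li_orth (W := W) (D := D) (f := f) (x := fun i => (x i : W.H X))
    (fun i h => h1 i (by
      have h4 : ((BN F N hN (x i) (x i) : ℚ) : W.K) = ((0 : ℚ) : W.K) := by
        rw [BN_cast, h, Rat.cast_zero]
      exact_mod_cast h4))
    (fun i j hij => by rw [← BN_cast (F := F) (hN := hN), h2 i j hij, Rat.cast_zero])).fintype_card_le_finrank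
  rwa [Fintype.card_fin] at h3

/-- The signature of the form. -/
noncomputable def sgn (F : Fr W X D f) (N : Submodule ℚ (W.H X)) (hN : ∀ u ∈ N, AS W X u) : ℤ :=
  (posIdx (fun x y => BN F N hN x y) : ℤ) - posIdx (fun x y => -BN F N hN x y)

lemma sgn_eq (hs : Sy W X D f) {N : Submodule ℚ (W.H X)} {hN : ∀ u ∈ N, AS W X u}
    {ι : Type*} [Fintype ι] {x : ι → N} (h : OM (BN F N hN) x) :
    sgn F N hN = ∑ i, ((SignType.sign (BN F N hN (x i) (x i)) : SignType) : ℤ) :=
  h.signature_eq (BN_symm hs)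

/-- The signature on a neutral part vanishes. -/
lemma Neu.sgn_eq_zero {Q J : Module.End W.K (W.H X)} {c : ℚ} (h : Neu W X D f Q J c) (m : ℤ) :
    sgn F (MT W X m Q) MT_as = 0 := by
  have hJ : ∀ z : MT W X m Q, J (z : W.H X) ∈ MT W X m Q := by
    rintro ⟨z, ⟨hz1, hz2⟩, hz3⟩
    refine ⟨⟨h.Ja.apply hz1, ?_⟩, ?_⟩
    · have := h.Jw.apply z
      rw [hz2] at this
      rw [this]; simp
    · rw [← Module.End.mul_apply, h.QJ]
  have key : ∀ x y : MT W X m Q, BN F (MT W X m Q) MT_as ⟨J x, hJ x⟩ ⟨J y, hJ y⟩ =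
      -c * BN F (MT W X m Q) MT_as x y := by
    intro x y
    have h1 : ((BN F (MT W X m Q) MT_as ⟨J x, hJ x⟩ ⟨J y, hJ y⟩ : ℚ) : W.K) =
        ((-c * BN F (MT W X m Q) MT_as x y : ℚ) : W.K) := by
      rw [BN_cast, Rat.cast_mul, BN_cast, Rat.cast_neg]
      change bf W X D f (J x) (J y) = _
      rw [h.JJ, x.2.2]
    exact_mod_cast h1
  have hset : ∀ r, PosFam (fun x y => BN F (MT W X m Q) MT_as x y) r ↔
      PosFam (fun x y => -BN F (MT W X m Q) MT_as x y) r := by
    intro r
    constructor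
    · rintro ⟨z, h1, h2⟩
      refine ⟨fun i => ⟨J (z i), hJ (z i)⟩, fun i => ?_, fun i j hij => ?_⟩
      · beta_reduce
        rw [key]
        have := mul_pos h.pos (h1 i)
        linarith
      · beta_reduce
        have h3 : BN F (MT W X m Q) MT_as (z i) (z j) = 0 := h2 i j hij
        rw [key, h3]; ring
    · rintro ⟨z, h1, h2⟩
      refine ⟨fun i => ⟨J (z i), hJ (z i)⟩, fun i => ?_, fun i j hij => ?_⟩
      · beta_reduce
        rw [key]
        have := mul_pos h.pos (h1 i)
        linarith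
      · beta_reduce
        have h3 : BN F (MT W X m Q) MT_as (z i) (z j) = 0 := neg_eq_zero.1 (h2 i j hij)
        rw [key, h3]; ring
  rw [sgn, posIdx, posIdx]
  have : {r | PosFam (fun x y => BN F (MT W X m Q) MT_as x y) r} =
      {r | PosFam (fun x y => -BN F (MT W X m Q) MT_as x y) r} := Set.ext hset
  rw [this, sub_self]

lemma abs_sign_le (s : SignType) : |((s : SignType) : ℤ)| ≤ 1 := by
  rcases s with _ | _ | _ <;> decide

/-- The signature is at most the rank. -/
lemma sgn_le (hs : Sy W X D f) {R : Module.End W.K (W.H X)} {ρ : ℕ}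
    (hr : Module.finrank W.K (LinearMap.range R) ≤ ρ) (m : ℤ) :
    |sgn F (MT W X m R) MT_as| ≤ ρ := by
  obtain ⟨n, x, hx⟩ := exists_om (F := F) hs (N := MT W X m R) (hN := MT_as)
  have hn : n ≤ ρ := by
    have h3 := li_orth (W := W) (D := D) (f := f) (x := fun i => (x i : W.H X))
      (fun i h => hx.ne i (by
        have h4 : ((BN F _ MT_as (x i) (x i) : ℚ) : W.K) = ((0 : ℚ) : W.K) := by
          rw [BN_cast, h, Rat.cast_zero]
        exact_mod_cast h4))
      (fun i j hij => by rw [← BN_cast (F := F) (hN := MT_as), hx.orth i j hij, Rat.cast_zero])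
    have h4 : LinearIndependent W.K (fun i => (⟨(x i : W.H X), ⟨_, (x i).2.2⟩⟩ :
        LinearMap.range R)) := by
      apply LinearIndependent.of_comp (LinearMap.range R).subtype
      exact h3
    have h5 := h4.fintype_card_le_finrank
    rw [Fintype.card_fin] at h5
    exact h5.trans hr
  rw [sgn_eq hs hx]
  calc |∑ i, ((SignType.sign (BN F _ MT_as (x i) (x i)) : SignType) : ℤ)| ≤
      ∑ i, |((SignType.sign (BN F _ MT_as (x i) (x i)) : SignType) : ℤ)| :=
        Finset.abs_sum_le_sum_abs _ _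
    _ ≤ ∑ _i : Fin n, (1 : ℤ) := Finset.sum_le_sum fun i _ => abs_sign_le _
    _ ≤ ρ := by simp; exact_mod_cast hn

/-- **The signature of all algebraic classes of weight `m` is at most `ρ`.** -/
theorem AD.bound (hs : Sy W X D f) {ρ : ℕ} (h : AD W X D f ρ) (m : ℤ) :
    |sgn F (MT W X m 1) MT_as| ≤ ρ := by
  classical
  obtain ⟨ι, _, Q, J, c, R, hR, hQ, hQQ, hRQ, hQR, hsum, hr⟩ := h
  let T : Option ι → Module.End W.K (W.H X) := fun o => o.elim R Q
  have hT : ∀ o, SI W X D f (T o) := by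
    rintro (_ | i)
    · exact hR
    · exact (hQ i).si
  have hTT : ∀ o o', o ≠ o' → T o * T o' = 0 := by
    rintro (_ | i) (_ | j) hne
    · exact absurd rfl hne
    · exact hRQ j
    · exact hQR i
    · exact hQQ i j (fun h => hne (by rw [h]))
  have hT1 : ∑ o, T o = 1 := by
    rw [Fintype.sum_option]
    exact hsum
  choose n x hx using fun o => exists_om (F := F) hs (N := MT W X m (T o)) (hN := MT_as)
  have hmem : ∀ p : (Σ o, Fin (n o)), ((x p.1 p.2 : MT W X m (T p.1)) : W.H X) ∈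
      MT W X m 1 := fun p => ⟨(x p.1 p.2).2.1, rfl⟩
  let y : (Σ o, Fin (n o)) → MT W X m 1 := fun p => ⟨_, hmem p⟩
  have hyy : ∀ p q, ((BN F (MT W X m 1) MT_as (y p) (y q) : ℚ) : W.K) =
      bf W X D f (x p.1 p.2 : W.H X) (x q.1 q.2 : W.H X) := fun p q => BN_cast _ _
  have hsame : ∀ o (i j : Fin (n o)), BN F (MT W X m 1) MT_as (y ⟨o, i⟩) (y ⟨o, j⟩) =
      BN F (MT W X m (T o)) MT_as (x o i) (x o j) := by
    intro o i j
    have h1 := hyy ⟨o, i⟩ ⟨o, j⟩
    rw [← BN_cast (F := F) (hN := MT_as)] at h1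
    exact_mod_cast h1
  have hom : OM (BN F (MT W X m 1) MT_as) y := by
    refine ⟨?_, ?_, ?_⟩
    · rintro ⟨o, i⟩
      rw [hsame]; exact (hx o).ne i
    · rintro ⟨o, i⟩ ⟨o', j⟩ hne
      by_cases ho : o = o'
      · subst ho
        rw [hsame]
        exact (hx o).orth i j (fun h => hne (by rw [h]))
      · have h1 := hyy ⟨o, i⟩ ⟨o', j⟩
        have h2 : bf W X D f (x o i : W.H X) (x o' j : W.H X) = 0 := by
          have e1 := (x o i).2.2
          have e2 := (x o' j).2.2
          rw [← e1, ← e2, (hT o).sa, ← Module.End.mul_apply, hTT o o' ho, LinearMap.zero_apply,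
            map_zero]
        change _ = bf W X D f (x o i : W.H X) (x o' j : W.H X) at h1
        rw [h2] at h1
        exact_mod_cast h1
    · intro u hu
      have hTu : ∀ o, T o (u : W.H X) ∈ MT W X m (T o) := by
        intro o
        refine ⟨⟨(hT o).ao.apply u.2.1.1, ?_⟩, ?_⟩
        · have := (hT o).hm.apply (u : W.H X)
          rw [u.2.1.2] at this
          rw [this]; simp
        · rw [← Module.End.mul_apply, (hT o).sq]
      have hu0 : ∀ o, bf W X D f (T o u) (T o u) = 0 := by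
        intro o
        have h1 := (hx o).max ⟨_, hTu o⟩ (fun i => by
          have h2 : ((BN F (MT W X m (T o)) MT_as ⟨_, hTu o⟩ (x o i) : ℚ) : W.K) = ((0 : ℚ) : W.K) := by
            rw [BN_cast]
            change bf W X D f (T o u) (x o i : W.H X) = _
            rw [(hT o).sa, (x o i).2.2]
            have h3 := hu ⟨o, i⟩
            have h4 : ((BN F (MT W X m 1) MT_as u (y ⟨o, i⟩) : ℚ) : W.K) =
              bf W X D f (u : W.H X) (x o i : W.H X) := BN_cast _ _
            rw [← h4, h3]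
          exact_mod_cast h2)
        have h2 : ((BN F (MT W X m (T o)) MT_as ⟨_, hTu o⟩ ⟨_, hTu o⟩ : ℚ) : W.K) =
            bf W X D f (T o u) (T o u) := BN_cast _ _
        rw [← h2, h1, Rat.cast_zero]
      have h1 : (u : W.H X) = ∑ o, T o u := by
        rw [← LinearMap.sum_apply, hT1]; rfl
      have h2 : bf W X D f (u : W.H X) (u : W.H X) = 0 := by
        calc bf W X D f (u : W.H X) (u : W.H X) = bf W X D f (∑ o, T o u) (u : W.H X) := by
              rw [← h1]
          _ = ∑ o, bf W X D f (T o u) (u : W.H X) := by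
              rw [map_sum, LinearMap.sum_apply]
          _ = ∑ o, bf W X D f (T o u) (T o u) :=
              Finset.sum_congr rfl fun o _ => ((hT o).bf_sq _ _).symm
          _ = 0 := Finset.sum_eq_zero fun o _ => hu0 o
      have h3 : ((BN F (MT W X m 1) MT_as u u : ℚ) : W.K) = ((0 : ℚ) : W.K) := by
        rw [BN_cast, h2, Rat.cast_zero]
      exact_mod_cast h3
  have e1 : sgn F (MT W X m 1) MT_as = ∑ o, sgn F (MT W X m (T o)) MT_as := by
    rw [sgn_eq hs hom, Fintype.sum_sigma]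
    apply Finset.sum_congr rfl
    intro o _
    rw [sgn_eq hs (hx o)]
    apply Finset.sum_congr rfl
    intro i _
    rw [hsame]
  rw [e1, Fintype.sum_option]
  have e2 : ∑ i : ι, sgn F (MT W X m (T (some i))) MT_as = 0 :=
    Finset.sum_eq_zero fun i _ => (hQ i).sgn_eq_zero m
  rw [e2, add_zero]
  exact sgn_le hs hr m

/-- The signature in terms of the signatures of the pairings of the conjecture of Hodge type. -/
theorem sgn_wsum (hs : Sy W X D f) (m : ℤ) :
    sgn F (MT W X m 1) MT_as = wsum X.dim (sig W X D) m := by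
  obtain ⟨ι, _, y, s, h1, h2, h3, h4, h5, h6, h7⟩ := exists_fam F m
  have hy : ∀ i, y i ∈ MT W X m 1 := fun i => ⟨⟨h1 i, h2 i⟩, rfl⟩
  have hval : ∀ i, BN F (MT W X m 1) MT_as ⟨y i, hy i⟩ ⟨y i, hy i⟩ = s i := by
    intro i
    have : ((BN F (MT W X m 1) MT_as ⟨y i, hy i⟩ ⟨y i, hy i⟩ : ℚ) : W.K) = (s i : W.K) := by
      rw [BN_cast, ← h4 i]
    exact_mod_cast this
  have hom : OM (BN F (MT W X m 1) MT_as) (fun i => (⟨y i, hy i⟩ : MT W X m 1)) := by
    refine ⟨fun i => by rw [hval]; exact h3 i, fun i j hij => ?_, fun u hu => ?_⟩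
    · have : ((BN F (MT W X m 1) MT_as ⟨y i, hy i⟩ ⟨y j, hy j⟩ : ℚ) : W.K) = ((0 : ℚ) : W.K) := by
        rw [BN_cast, Rat.cast_zero]; exact h5 i j hij
      exact_mod_cast this
    · have h8 : bf W X D f (u : W.H X) (u : W.H X) = 0 := by
        refine h6 _ u.2.1.1 u.2.1.2 fun i => ?_
        have h9 := hu i
        have h10 : ((BN F (MT W X m 1) MT_as u ⟨y i, hy i⟩ : ℚ) : W.K) =
          bf W X D f (u : W.H X) (y i) := BN_cast _ _
        rw [← h10, h9, Rat.cast_zero]
      have h9 : ((BN F (MT W X m 1) MT_as u u : ℚ) : W.K) = ((0 : ℚ) : W.K) := by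
        rw [BN_cast, h8, Rat.cast_zero]
      exact_mod_cast h9
  rw [sgn_eq hs hom, ← h7]
  exact Finset.sum_congr rfl fun i _ => by rw [hval]

end Form

lemma wsum_sub (d : ℕ) (σ : ℕ → ℤ) {i : ℕ} (hi : 2 * i ≤ d) :
    wsum d σ ((d : ℤ) - 2 * i) - wsum d σ ((d : ℤ) - 2 * i + 2) = σ i := by
  rw [wsum, wsum, ← Finset.sum_sub_distrib, Finset.sum_eq_single i]
  · have h1 : |(d : ℤ) - 2 * i| = (d : ℤ) - 2 * i := abs_of_nonneg (by omega)
    have h2 : |(d : ℤ) - 2 * i + 2| = (d : ℤ) - 2 * i + 2 := abs_of_nonneg (by omega)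
    rw [h1, h2, if_pos ⟨le_rfl, by omega⟩, if_neg (by omega), sub_zero]
  · intro n hn hne
    have h1 : |(d : ℤ) - 2 * i| = (d : ℤ) - 2 * i := abs_of_nonneg (by omega)
    have h2 : |(d : ℤ) - 2 * i + 2| = (d : ℤ) - 2 * i + 2 := abs_of_nonneg (by omega)
    rw [h1, h2]
    rcases lt_or_gt_of_ne hne with h | h
    · rw [if_pos ⟨by omega, by omega⟩, if_pos ⟨by omega, by omega⟩, sub_self]
    · rw [if_neg (by omega), if_neg (by omega), sub_self]
  · intro h
    exfalso
    apply h
    rw [Finset.mem_range]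
    omega

/-- **The bound for the signatures.** -/
theorem AD.sig_le {D : X.Cycles} {f : Module.End W.K (W.H X)} (F : Fr W X D f)
    (hs : Sy W X D f) {ρ : ℕ} (h : AD W X D f ρ) :
    (∀ m, |wsum X.dim (sig W X D) m| ≤ ρ) ∧ ∀ i, 2 * i ≤ X.dim → |sig W X D i| ≤ 2 * ρ := by
  have h1 : ∀ m, |wsum X.dim (sig W X D) m| ≤ ρ := by
    intro m
    rw [← sgn_wsum (F := F) hs]
    exact h.bound hs m
  refine ⟨h1, fun i hi => ?_⟩
  rw [← wsum_sub X.dim (sig W X D) hi]
  calc |wsum X.dim (sig W X D) ((X.dim : ℤ) - 2 * i) -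
        wsum X.dim (sig W X D) ((X.dim : ℤ) - 2 * i + 2)| ≤
      |wsum X.dim (sig W X D) ((X.dim : ℤ) - 2 * i)| +
        |wsum X.dim (sig W X D) ((X.dim : ℤ) - 2 * i + 2)| := abs_sub _ _
    _ ≤ ρ + ρ := add_le_add (h1 _) (h1 _)
    _ = 2 * ρ := by ring

end Pool.Agent.Run7.h192.Sgn
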